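import Mathlib
open Metric Set Filter Topology MeasureTheory Complex InnerProductSpace

namespace Pool.Agent.Results.MP_f2ff95_an.Disproof

noncomputable section

/-! definitions used in the statement -/

/-- Real-valued subharmonic function of the unit disc: upper semicontinuous, with the
sub-mean-value inequality on all sufficiently small circles. -/
def SubharmonicOnDisc (u : ℂ → ℝ) : Prop :=
  UpperSemicontinuousOn u (ball (0:ℂ) 1) ∧
  ∀ z ∈ ball (0:ℂ) 1, ∃ δ : ℝ, 0 < δ ∧ ∀ ρ : ℝ, 0 < ρ → ρ < δ →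
    CircleIntegrable u z ρ ∧ u z ≤ Real.circleAverage u z ρ

/-- `A(r,u)`, the infimum of `u` on the circle of radius `r`. -/
def lowerEnv (r : ℝ) (u : ℂ → ℝ) : EReal := ⨅ z ∈ sphere (0:ℂ) r, ((u z : ℝ) : EReal)

/-- The real-valued members of the class `U_E`. -/
def classU (E : Set ℝ) : Set (ℂ → ℝ) :=
  {u | SubharmonicOnDisc u ∧ (∀ z ∈ ball (0:ℂ) 1, u z ≤ 0) ∧ ∀ r ∈ E, lowerEnv r u ≤ -1}

/-- The set of angles in `[0, 2π)` where `u < -K` on the circle of radius `r`. -/
def levelSet (u : ℂ → ℝ) (r K : ℝ) : Set ℝ :=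
  {θ | θ ∈ Ico 0 (2 * Real.pi) ∧ u (circleMap 0 r θ) < -K}

/-- A subset of the real axis as a subset of the plane. -/
def onAxis (E : Set ℝ) : Set ℂ := (fun x : ℝ => (x : ℂ)) '' E

/-- `w` is the function `u_E`: bounded, harmonic in the disc off `E`, with boundary values `0`
on the unit circle (off the closure of `E`) and `-1` on `E`. -/
structure IsExtremal (E : Set ℝ) (w : ℂ → ℝ) : Prop where
  harmonic : HarmonicOnNhd w (ball (0:ℂ) 1 \ onAxis E)
  bounded : ∃ B : ℝ, ∀ z ∈ ball (0:ℂ) 1, |w z| ≤ B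
  tendsto_circle : ∀ ζ ∈ sphere (0:ℂ) 1, ζ ∉ closure (onAxis E) →
    Tendsto w (𝓝[ball (0:ℂ) 1 \ onAxis E] ζ) (𝓝 0)
  tendsto_slit : ∀ x ∈ E, Tendsto w (𝓝[ball (0:ℂ) 1 \ onAxis E] (x : ℂ)) (𝓝 (-1))
  eq_slit : ∀ x ∈ E, w (x : ℂ) = -1

/-! real estimates -/

def aa : ℝ := 49/625
def cc : ℝ := 24/25

def DD (t : ℝ) : ℝ := Real.sqrt (aa^2 + 4 * cc^2 * t^2)
def RR (t : ℝ) : ℝ := Real.sqrt ((DD t + aa + 2 * cc^2 * t^2) / 2)
def PP (t : ℝ) : ℝ := 1 + DD t + 2 * RR t
def WW (t : ℝ) : ℝ := Real.sqrt (t * (1 + t))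
def QQ (t : ℝ) : ℝ := 1 + 2 * t + 2 * WW t

lemma DD_sq (t : ℝ) : DD t ^ 2 = aa^2 + 4 * cc^2 * t^2 := by
  unfold DD; apply Real.sq_sqrt; positivity

lemma DD_pos (t : ℝ) : 0 < DD t := by
  unfold DD; apply Real.sqrt_pos.mpr; unfold aa; positivity

lemma RR_sq (t : ℝ) : RR t ^ 2 = (DD t + aa + 2 * cc^2 * t^2) / 2 := by
  unfold RR; apply Real.sq_sqrt
  have := DD_pos t
  unfold aa; positivity

lemma RR_pos (t : ℝ) : 0 < RR t := by
  unfold RR; apply Real.sqrt_pos.mpr
  have := DD_pos t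
  unfold aa; positivity

lemma WW_pos {t : ℝ} (ht : 0 < t) : 0 < WW t := by
  unfold WW; apply Real.sqrt_pos.mpr; positivity

lemma WW_sq {t : ℝ} (ht : 0 ≤ t) : WW t ^ 2 = t * (1 + t) := by
  unfold WW; apply Real.sq_sqrt; positivity

lemma hasDerivAt_DD (t : ℝ) : HasDerivAt DD (4 * cc^2 * t / DD t) t := by
  have h1 : HasDerivAt (fun t : ℝ => aa^2 + 4 * cc^2 * t^2) (4 * cc^2 * (2 * t)) t := by
    have := ((hasDerivAt_pow 2 t).const_mul (4 * cc^2)).const_add (aa^2)
    simpa using this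
  have h2 : aa^2 + 4 * cc^2 * t^2 ≠ 0 := by
    have : 0 < aa^2 + 4 * cc^2 * t^2 := by unfold aa; positivity
    exact this.ne'
  have h3 := h1.sqrt h2
  have h4 : 4 * cc^2 * (2 * t) / (2 * √(aa^2 + 4 * cc^2 * t^2)) = 4 * cc^2 * t / DD t := by
    unfold DD
    have := (DD_pos t).ne'
    unfold DD at this
    field_simp
  rw [h4] at h3
  exact h3

lemma hasDerivAt_RR (t : ℝ) : HasDerivAt RR ((4 * cc^2 * t / DD t + 4 * cc^2 * t) / (4 * RR t)) t := by
  have h1 : HasDerivAt (fun t : ℝ => (DD t + aa + 2 * cc^2 * t^2) / 2)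
      ((4 * cc^2 * t / DD t + 2 * cc^2 * (2 * t)) / 2) t := by
    have h0 := (hasDerivAt_DD t).add_const aa
    have := (h0.add ((hasDerivAt_pow 2 t).const_mul (2 * cc^2))).div_const 2
    simpa using this
  have h2 : (DD t + aa + 2 * cc^2 * t^2) / 2 ≠ 0 := by
    rw [← RR_sq]
    have := RR_pos t
    positivity
  have h3 := h1.sqrt h2
  have h5 := (RR_pos t).ne'
  have h4 : (4 * cc^2 * t / DD t + 2 * cc^2 * (2 * t)) / 2 / (2 * √((DD t + aa + 2 * cc^2 * t^2) / 2))
      = (4 * cc^2 * t / DD t + 4 * cc^2 * t) / (4 * RR t) := by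
    change _ / (2 * RR t) = _
    have h6 := (DD_pos t).ne'
    field_simp
    ring
  rw [h4] at h3
  exact h3

lemma hasDerivAt_PP (t : ℝ) : HasDerivAt PP (PP t * (2 * cc^2 * t / (DD t * RR t))) t := by
  have h1 := ((hasDerivAt_DD t).const_add 1).add ((hasDerivAt_RR t).const_mul 2)
  have hD := DD_pos t
  have hR := RR_pos t
  have h2 : 4 * cc^2 * t / DD t + 2 * ((4 * cc^2 * t / DD t + 4 * cc^2 * t) / (4 * RR t))
      = PP t * (2 * cc^2 * t / (DD t * RR t)) := by
    unfold PP
    field_simp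
    ring
  rw [h2] at h1
  exact h1

lemma hasDerivAt_QQ {t : ℝ} (ht : 0 < t) : HasDerivAt QQ (QQ t / WW t) t := by
  have h1 : HasDerivAt (fun t : ℝ => t * (1 + t)) (1 * (1 + t) + t * 1) t :=
    (hasDerivAt_id t).mul ((hasDerivAt_id t).const_add 1)
  have h2 : t * (1 + t) ≠ 0 := by positivity
  have h3 := h1.sqrt h2
  have h4 := (((hasDerivAt_id t).const_mul 2).const_add 1).add (h3.const_mul 2)
  have hW := WW_pos ht
  have h5 : 2 * 1 + 2 * ((1 * (1 + t) + t * 1) / (2 * √(t * (1 + t)))) = QQ t / WW t := by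
    change 2 * 1 + 2 * ((1 * (1 + t) + t * 1) / (2 * WW t)) = QQ t / WW t
    unfold QQ
    field_simp
    ring
  rw [h5] at h4
  exact h4

lemma QQ_pos {t : ℝ} (ht : 0 ≤ t) : 0 < QQ t := by
  have : 0 ≤ WW t := Real.sqrt_nonneg _
  unfold QQ; positivity

lemma PP_pos (t : ℝ) : 0 < PP t := by
  have := DD_pos t
  have := RR_pos t
  unfold PP; positivity

lemma key_ineq {t : ℝ} (ht : 0 < t) : 2 * cc^2 * t / (DD t * RR t) ≤ 1 / WW t := by
  have hD := DD_pos t
  have hR := RR_pos t
  have hW := WW_pos ht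
  rw [div_le_div_iff₀ (by positivity) hW, one_mul]
  -- 2 c² t W ≤ D R
  apply le_of_sq_le_sq _ (by positivity)
  have h1 : (2 * cc^2 * t * WW t)^2 = 4 * cc^4 * t^2 * (t * (1 + t)) := by
    rw [mul_pow, WW_sq ht.le]; ring
  have h2 : (DD t * RR t)^2 = (aa^2 + 4 * cc^2 * t^2) * ((DD t + aa + 2 * cc^2 * t^2) / 2) := by
    rw [mul_pow, DD_sq, RR_sq]
  rw [h1, h2]
  have hc : (0:ℝ) < cc := by unfold cc; norm_num
  have hc1 : cc ≤ 1 := by unfold cc; norm_num
  have ha : (0:ℝ) < aa := by unfold aa; norm_num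
  have h3 : 2 * cc * t ≤ DD t := by
    apply le_of_sq_le_sq _ hD.le
    rw [DD_sq]; nlinarith
  have h4 : 4 * cc^2 * t^2 * ((2 * cc * t + 2 * cc^2 * t^2) / 2) ≤
      (aa^2 + 4 * cc^2 * t^2) * ((DD t + aa + 2 * cc^2 * t^2) / 2) := by
    apply mul_le_mul
    · nlinarith
    · linarith
    · positivity
    · positivity
  refine le_trans ?_ h4
  have h5 : 4 * cc^2 * t^2 * ((2 * cc * t + 2 * cc^2 * t^2) / 2) - 4 * cc^4 * t^2 * (t * (1 + t))
      = 4 * cc^3 * t^3 * (1 - cc) := by ring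
  have h6 : 0 ≤ 4 * cc^3 * t^3 * (1 - cc) := by
    have : 0 ≤ 1 - cc := by linarith
    positivity
  linarith

lemma ratio_antitone : AntitoneOn (fun t => PP t / QQ t) (Ioi (0:ℝ)) := by
  have hder : ∀ t ∈ Ioi (0:ℝ), HasDerivAt (fun t => PP t / QQ t)
      ((PP t * (2 * cc^2 * t / (DD t * RR t)) * QQ t - PP t * (QQ t / WW t)) / QQ t ^ 2) t := by
    intro t ht
    exact (hasDerivAt_PP t).div (hasDerivAt_QQ ht) (QQ_pos (le_of_lt ht)).ne'
  apply antitoneOn_of_deriv_nonpos (convex_Ioi 0)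
  · intro t ht
    exact (hder t ht).continuousAt.continuousWithinAt
  · rw [interior_Ioi]
    intro t ht
    exact (hder t ht).differentiableAt.differentiableWithinAt
  · rw [interior_Ioi]
    intro t ht
    rw [(hder t ht).deriv]
    have hP := PP_pos t
    have hQ := QQ_pos (le_of_lt ht)
    have hk := key_ineq ht
    have hW := WW_pos ht
    apply div_nonpos_of_nonpos_of_nonneg _ (by positivity)
    have h1 : PP t * (2 * cc^2 * t / (DD t * RR t)) * QQ t - PP t * (QQ t / WW t)
      = PP t * QQ t * (2 * cc^2 * t / (DD t * RR t) - 1 / WW t) := by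
      field_simp
    rw [h1]
    apply mul_nonpos_of_nonneg_of_nonpos (by positivity)
    linarith

/-- the normalising constant `log (128/75)` -/
def Lc : ℝ := Real.log (128/75)

lemma Lc_pos : 0 < Lc := Real.log_pos (by norm_num)

lemma num1 : PP (149/100000) / QQ (149/100000) ≤ 163866/108018 := by
  have hD : DD (149/100000) ≤ 7846/100000 := by
    unfold DD aa cc
    rw [Real.sqrt_le_left (by norm_num)]; norm_num
  have hR : RR (149/100000) ≤ 2801/10000 := by
    unfold RR
    rw [Real.sqrt_le_left (by norm_num)]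
    unfold aa cc
    linarith
  have hW : 386/10000 ≤ WW (149/100000) := by
    unfold WW
    apply Real.le_sqrt_of_sq_le; norm_num
  have hP : PP (149/100000) ≤ 163866/100000 := by unfold PP; linarith
  have hQ : 108018/100000 ≤ QQ (149/100000) := by unfold QQ; linarith
  calc PP (149/100000) / QQ (149/100000) ≤ (163866/100000) / (108018/100000) := by
        apply div_le_div₀ (by norm_num) hP (by norm_num) hQ
    _ = 163866/108018 := by norm_num

lemma num2 : PP (7071/10000) / QQ (7071/10000) ≤ 45326/46114 := by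
  have hD : DD (7071/10000) ≤ 136/100 := by
    unfold DD aa cc
    rw [Real.sqrt_le_left (by norm_num)]; norm_num
  have hR : RR (7071/10000) ≤ 10863/10000 := by
    unfold RR
    rw [Real.sqrt_le_left (by norm_num)]
    unfold aa cc
    linarith
  have hW : 10986/10000 ≤ WW (7071/10000) := by
    unfold WW
    apply Real.le_sqrt_of_sq_le; norm_num
  have hP : PP (7071/10000) ≤ 45326/10000 := by unfold PP; linarith
  have hQ : 46114/10000 ≤ QQ (7071/10000) := by unfold QQ; linarith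
  calc PP (7071/10000) / QQ (7071/10000) ≤ (45326/10000) / (46114/10000) := by
        apply div_le_div₀ (by norm_num) hP (by norm_num) hQ
    _ = 45326/46114 := by norm_num

lemma v1_bound {t t0 x : ℝ} {p q : ℕ} (h0 : 0 < t0) (ht : t0 ≤ t) (hx : PP t0 / QQ t0 ≤ x)
    (hq : 0 < q) (hx0 : 0 < x) (hpow : (x / cc) ^ q ≤ (128/75 : ℝ) ^ p) :
    (Real.log (PP t / cc) - Real.log (QQ t)) / Lc ≤ (p : ℝ) / q := by
  have hL := Lc_pos
  have hq' : (0:ℝ) < q := by exact_mod_cast hq
  have hc : (0:ℝ) < cc := by unfold cc; norm_num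
  have ht' : 0 < t := h0.trans_le ht
  have hP := PP_pos t
  have hQ := QQ_pos ht'.le
  have h1 : PP t / QQ t ≤ x := (ratio_antitone h0 ht' ht).trans hx
  have h2 : Real.log (PP t / cc) - Real.log (QQ t) = Real.log (PP t / QQ t / cc) := by
    rw [← Real.log_div (by positivity) hQ.ne']
    congr 1
    field_simp
  rw [h2, div_le_div_iff₀ hL hq']
  have h3 : Real.log (PP t / QQ t / cc) ≤ Real.log (x / cc) := by
    apply Real.log_le_log (by positivity)
    gcongr
  have h4 : Real.log (x / cc) * q ≤ p * Lc := by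
    unfold Lc
    rw [mul_comm, ← Real.log_pow, ← Real.log_pow]
    exact Real.log_le_log (by positivity) hpow
  calc Real.log (PP t / QQ t / cc) * q ≤ Real.log (x / cc) * q := by gcongr
    _ ≤ p * Lc := h4

lemma v1_bound1 {t : ℝ} (ht : 149/100000 ≤ t) :
    (Real.log (PP t / cc) - Real.log (QQ t)) / Lc ≤ 7/8 := by
  have := v1_bound (p := 7) (q := 8) (by norm_num) ht num1 (by norm_num) (by norm_num)
    (by unfold cc; norm_num)
  norm_num at this ⊢
  exact this

lemma v1_bound2 {t : ℝ} (ht : 7071/10000 ≤ t) :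
    (Real.log (PP t / cc) - Real.log (QQ t)) / Lc ≤ 1/20 := by
  have := v1_bound (p := 1) (q := 20) (by norm_num) ht num2 (by norm_num) (by norm_num)
    (by unfold cc; norm_num)
  norm_num at this ⊢
  exact this

/-! the estimate for the other slit -/

/-- modulus of the Moebius image -/
def qq (t : ℝ) : ℝ := 2 * cc * t / DD t

lemma qq_nonneg {t : ℝ} (ht : 0 ≤ t) : 0 ≤ qq t := by
  have := DD_pos t
  have hc : (0:ℝ) < cc := by unfold cc; norm_num
  unfold qq; positivity

lemma qq_lt_one (t : ℝ) : qq t < 1 := by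
  have hD := DD_pos t
  have hc : (0:ℝ) < cc := by unfold cc; norm_num
  unfold qq
  rw [div_lt_one hD]
  apply lt_of_pow_lt_pow_left₀ 2 hD.le
  rw [DD_sq]
  have : 0 < aa^2 := by unfold aa; norm_num
  nlinarith

lemma qq_mono {s t : ℝ} (hs : 0 ≤ s) (hst : s ≤ t) : qq s ≤ qq t := by
  have hD := DD_pos t
  have hD' := DD_pos s
  have hc : (0:ℝ) < cc := by unfold cc; norm_num
  unfold qq
  rw [div_le_div_iff₀ hD' hD]
  have ht : 0 ≤ t := hs.trans hst
  apply le_of_sq_le_sq _ (by positivity)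
  rw [mul_pow (2 * cc * s), mul_pow (2 * cc * t), DD_sq, DD_sq]
  have h2 : s^2 ≤ t^2 := by gcongr
  have h3 : 0 ≤ 4 * cc^2 * aa^2 * (t^2 - s^2) := by
    have := sub_nonneg.mpr h2
    positivity
  nlinarith

lemma arctan_le_self' {x : ℝ} (hx : 0 ≤ x) : Real.arctan x ≤ x := by
  have h := Real.le_tan (Real.arctan_nonneg.mpr hx) (Real.arctan_lt_pi_div_two x)
  rwa [Real.tan_arctan] at h

/-- lower bound function for `s_2` -/
def yy (q : ℝ) : ℝ := Real.sqrt (2 * q) / (1 - q)

lemma yy_mono {p q : ℝ} (hpq : p ≤ q) (hq : q < 1) : yy p ≤ yy q := by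
  unfold yy
  apply div_le_div₀ (Real.sqrt_nonneg _) _ (by linarith) (by linarith)
  apply Real.sqrt_le_sqrt
  linarith

lemma s2_bound1 {t : ℝ} (ht : 159/100000 ≤ t) :
    16/100 ≤ (2 / Real.pi) * Real.arctan (yy (qq t)) := by
  have hpi := Real.pi_pos
  have hpi2 := Real.pi_lt_d2
  have h0 : (389/10000 : ℝ) ≤ qq (159/100000) := by
    have hD : DD (159/100000) ≤ 7847/100000 := by
      unfold DD aa cc
      rw [Real.sqrt_le_left (by norm_num)]; norm_num
    have hD0 := DD_pos (159/100000)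
    unfold qq
    rw [le_div_iff₀ hD0]
    unfold cc
    linarith
  have h1 : (389/10000 : ℝ) ≤ qq t := h0.trans (qq_mono (by norm_num) ht)
  have h2 : yy (389/10000) ≤ yy (qq t) := yy_mono h1 (qq_lt_one t)
  have h3 : (29/100 : ℝ) ≤ yy (389/10000) := by
    unfold yy
    rw [le_div_iff₀ (by norm_num)]
    apply Real.le_sqrt_of_sq_le
    norm_num
  have h4 : 8 / 100 * Real.pi ≤ Real.arctan (yy (qq t)) := by
    have h5 : Real.tan (8/100 * Real.pi) ≤ yy (qq t) := by
      refine le_trans ?_ (h3.trans h2)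
      have hx0 : 0 ≤ 8/100 * Real.pi := by positivity
      have hx1 : 8/100 * Real.pi ≤ 252/1000 := by linarith
      have hs : Real.sin (8/100 * Real.pi) ≤ 252/1000 := (Real.sin_le hx0).trans hx1
      have hcos : 1 - (252/1000)^2/2 ≤ Real.cos (8/100 * Real.pi) := by
        refine le_trans ?_ Real.one_sub_sq_div_two_le_cos
        nlinarith
      have hcos0 : 0 < Real.cos (8/100 * Real.pi) := by
        refine lt_of_lt_of_le ?_ hcos
        norm_num
      rw [Real.tan_eq_sin_div_cos, div_le_iff₀ hcos0]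
      calc Real.sin (8/100 * Real.pi) ≤ 252/1000 := hs
        _ ≤ 29/100 * (1 - (252/1000)^2/2) := by norm_num
        _ ≤ 29/100 * Real.cos (8/100 * Real.pi) := by gcongr
    have h6 := Real.arctan_strictMono.monotone h5
    rwa [Real.arctan_tan (by linarith) (by linarith)] at h6
  calc (16/100 : ℝ) = (2 / Real.pi) * (8/100 * Real.pi) := by field_simp; norm_num
    _ ≤ (2 / Real.pi) * Real.arctan (yy (qq t)) := by gcongr

lemma s2_bound2 {t : ℝ} (ht : 7071/10000 ≤ t) :
    39/40 ≤ (2 / Real.pi) * Real.arctan (yy (qq t)) := by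
  have hpi := Real.pi_pos
  have hpi3 := Real.pi_gt_three
  have h0 : (99/100 : ℝ) ≤ qq (7071/10000) := by
    have hD : DD (7071/10000) ≤ 136/100 := by
      unfold DD aa cc
      rw [Real.sqrt_le_left (by norm_num)]; norm_num
    have hD0 := DD_pos (7071/10000)
    unfold qq
    rw [le_div_iff₀ hD0]
    unfold cc
    linarith
  have h1 : (99/100 : ℝ) ≤ qq t := h0.trans (qq_mono (by norm_num) ht)
  have h2 : yy (99/100) ≤ yy (qq t) := yy_mono h1 (qq_lt_one t)
  have h3 : (100 : ℝ) ≤ yy (99/100) := by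
    unfold yy
    rw [le_div_iff₀ (by norm_num)]
    apply Real.le_sqrt_of_sq_le
    norm_num
  have h4 : Real.pi / 2 - 1/100 ≤ Real.arctan (yy (qq t)) := by
    have h5 : (100:ℝ) ≤ yy (qq t) := h3.trans h2
    have h6 : 0 < yy (qq t) := by linarith
    have h7 := Real.arctan_inv_of_pos h6
    have h8 : Real.arctan (yy (qq t))⁻¹ ≤ (yy (qq t))⁻¹ := arctan_le_self' (by positivity)
    have h9 : (yy (qq t))⁻¹ ≤ 1/100 := by
      rw [one_div]; exact inv_anti₀ (by norm_num) h5
    linarith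
  have h10 : (2 / Real.pi) * (Real.pi / 2 - 1/100) ≤ (2 / Real.pi) * Real.arctan (yy (qq t)) := by
    gcongr
  refine le_trans ?_ h10
  rw [div_mul_eq_mul_div, le_div_iff₀ hpi]
  linarith

/-! the explicit functions -/

/-- harmonic off the slit `[0,1)`, zero on the slit, one on the circle -/
def s0 (z : ℂ) : ℝ := (2 / Real.pi) * Real.arctan (Real.sqrt (2 * (‖z‖ - z.re)) / (1 - ‖z‖))

/-- Moebius map of the disc taking the slit `(-1,-c]` to `[0,1)` -/
def mob (z : ℂ) : ℂ := (-z - (cc : ℂ)) / (1 + (cc : ℂ) * z)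

def s2 (z : ℂ) : ℝ := s0 (mob z)

def gX (z : ℂ) : ℝ := (‖z‖ + ‖z - (cc : ℂ)‖) / cc

/-- Green function of the complement of the segment `[0,c]` with pole at infinity -/
def gg (z : ℂ) : ℝ := Real.log (gX z + Real.sqrt (gX z ^ 2 - 1))

/-- principal square root -/
def sq (z : ℂ) : ℂ := z ^ ((2:ℂ)⁻¹)

def hh (z : ℂ) : ℝ := Real.log (‖1 + sq (1 - (cc : ℂ) * z)‖ ^ 2 / cc)

/-- the subharmonic function of the counterexample -/
def uu (z : ℂ) : ℝ := (gg z - hh z) / Lc + s2 z - 1

lemma sq_sq (z : ℂ) : sq z ^ 2 = z := by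
  unfold sq
  exact Complex.cpow_nat_inv_pow z (n := 2) (by norm_num)

lemma norm_sq_sq (z : ℂ) : ‖sq z‖ ^ 2 = ‖z‖ := by
  rw [← norm_pow, sq_sq]

lemma sq_re_nonneg (z : ℂ) : 0 ≤ (sq z).re := by
  unfold sq
  by_cases hz : z = 0
  · subst hz
    rw [Complex.zero_cpow (by norm_num)]
    simp
  · rw [Complex.cpow_def_of_ne_zero hz, Complex.exp_re]
    apply mul_nonneg (Real.exp_pos _).le
    have him : (Complex.log z * (2:ℂ)⁻¹).im = Complex.arg z / 2 := by
      have : (2:ℂ)⁻¹ = ((1/2 : ℝ) : ℂ) := by push_cast; norm_num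
      rw [this, Complex.im_mul_ofReal, Complex.log_im]
      ring
    rw [him]
    apply Real.cos_nonneg_of_neg_pi_div_two_le_of_le
    · have := Complex.neg_pi_lt_arg z; linarith
    · have := Complex.arg_le_pi z; linarith

lemma sq_re_sq (z : ℂ) : (sq z).re ^ 2 = (‖z‖ + z.re) / 2 := by
  have h1 := norm_sq_sq z
  have h2 : ((sq z) ^ 2).re = z.re := by rw [sq_sq]
  rw [← Complex.normSq_eq_norm_sq, Complex.normSq_apply] at h1
  rw [pow_two, Complex.mul_re] at h2
  nlinarith

lemma norm_one_add_sq (z : ℂ) : ‖1 + sq z‖ ^ 2 = 1 + ‖z‖ + 2 * Real.sqrt ((‖z‖ + z.re) / 2) := by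
  have h1 : (sq z).re = Real.sqrt ((‖z‖ + z.re) / 2) := by
    rw [← sq_re_sq, Real.sqrt_sq (sq_re_nonneg z)]
  rw [← h1, ← norm_sq_sq z, ← Complex.normSq_eq_norm_sq, ← Complex.normSq_eq_norm_sq,
    Complex.normSq_apply, Complex.normSq_apply]
  simp only [Complex.add_re, Complex.one_re, Complex.add_im, Complex.one_im]
  ring

lemma circ_re (θ : ℝ) : (circleMap 0 cc θ).re = cc * Real.cos θ := by
  simp [circleMap, Complex.exp_ofReal_mul_I_re]

lemma circ_im (θ : ℝ) : (circleMap 0 cc θ).im = cc * Real.sin θ := by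
  simp [circleMap, Complex.exp_ofReal_mul_I_im]

lemma cc_pos : (0:ℝ) < cc := by unfold cc; norm_num

lemma norm_of_normSq {z : ℂ} {x : ℝ} (hx : 0 ≤ x) (h : z.re * z.re + z.im * z.im = x ^ 2) : ‖z‖ = x := by
  rw [Complex.norm_def, Complex.normSq_apply, h, Real.sqrt_sq hx]

lemma circ_norm (θ : ℝ) : ‖circleMap 0 cc θ‖ = cc := by
  apply norm_of_normSq cc_pos.le
  rw [circ_re, circ_im]
  have := Real.sin_sq_add_cos_sq θ
  nlinarith

lemma cos_half (θ : ℝ) : Real.cos θ = 1 - 2 * |Real.sin (θ/2)|^2 := by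
  rw [sq_abs]
  have h := Real.cos_two_mul (θ/2)
  have h2 := Real.sin_sq_add_cos_sq (θ/2)
  have h3 : 2 * (θ/2) = θ := by ring
  rw [h3] at h
  linarith

lemma cos_half' (θ : ℝ) : Real.cos θ = 2 * |Real.cos (θ/2)|^2 - 1 := by
  rw [sq_abs]
  have h := Real.cos_two_mul (θ/2)
  have h3 : 2 * (θ/2) = θ := by ring
  rw [h3] at h
  linarith

lemma aa_eq : aa = 1 - cc^2 := by unfold aa cc; norm_num

lemma circ_gg (θ : ℝ) : gg (circleMap 0 cc θ) = Real.log (QQ |Real.sin (θ/2)|) := by
  set t := |Real.sin (θ/2)| with ht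
  have ht0 : 0 ≤ t := abs_nonneg _
  have h1 : ‖circleMap 0 cc θ - (cc : ℂ)‖ = 2 * cc * t := by
    apply norm_of_normSq (by have := cc_pos; positivity)
    rw [Complex.sub_re, Complex.sub_im, circ_re, circ_im, Complex.ofReal_re, Complex.ofReal_im]
    have h2 := Real.sin_sq_add_cos_sq θ
    have h3 := cos_half θ
    rw [← ht] at h3
    have h4 : Real.sin θ ^ 2 = 1 - Real.cos θ ^ 2 := by linarith
    calc (cc * Real.cos θ - cc) * (cc * Real.cos θ - cc) + (cc * Real.sin θ - 0) * (cc * Real.sin θ - 0)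
        = cc^2 * (Real.cos θ ^ 2 - 2 * Real.cos θ + 1 + Real.sin θ ^ 2) := by ring
      _ = cc^2 * (2 - 2 * Real.cos θ) := by rw [h4]; ring
      _ = (2 * cc * t)^2 := by rw [h3]; ring
  have h5 : gX (circleMap 0 cc θ) = 1 + 2 * t := by
    unfold gX
    rw [h1, circ_norm]
    have := cc_pos.ne'
    field_simp
  unfold gg QQ
  rw [h5]
  have h6 : (1 + 2 * t)^2 - 1 = 2^2 * (t * (1 + t)) := by ring
  rw [h6, Real.sqrt_mul (by norm_num), Real.sqrt_sq (by norm_num)]
  rfl

lemma circ_hh (θ : ℝ) : hh (circleMap 0 cc θ) = Real.log (PP |Real.sin (θ/2)| / cc) := by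
  set t := |Real.sin (θ/2)| with ht
  have ht0 : 0 ≤ t := abs_nonneg _
  have h3 := cos_half θ
  rw [← ht] at h3
  have hre : (1 - (cc : ℂ) * circleMap 0 cc θ).re = aa + 2 * cc^2 * t^2 := by
    rw [Complex.sub_re, Complex.re_ofReal_mul, circ_re, Complex.one_re, h3, aa_eq]; ring
  have him : (1 - (cc : ℂ) * circleMap 0 cc θ).im = - (cc^2 * Real.sin θ) := by
    rw [Complex.sub_im, Complex.im_ofReal_mul, circ_im, Complex.one_im]; ring
  have hn : ‖1 - (cc : ℂ) * circleMap 0 cc θ‖ = DD t := by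
    apply norm_of_normSq (DD_pos t).le
    rw [hre, him, DD_sq]
    have h2 := Real.sin_sq_add_cos_sq θ
    have h4 : Real.sin θ ^ 2 = 1 - (1 - 2 * t^2) ^ 2 := by rw [← h3]; linarith
    have h5 : -(cc ^ 2 * Real.sin θ) * -(cc ^ 2 * Real.sin θ) = cc^4 * Real.sin θ ^ 2 := by ring
    rw [h5, h4, aa_eq]
    ring
  unfold hh PP RR
  rw [norm_one_add_sq, hn, hre]
  congr 2
  ring_nf

lemma circ_s2 (θ : ℝ) : (2 / Real.pi) * Real.arctan (yy (qq |Real.cos (θ/2)|)) ≤ s2 (circleMap 0 cc θ) := by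
  set t := |Real.cos (θ/2)| with ht
  have ht0 : 0 ≤ t := abs_nonneg _
  have h3 := cos_half' θ
  rw [← ht] at h3
  have hc := cc_pos
  have hnum : ‖-circleMap 0 cc θ - (cc : ℂ)‖ = 2 * cc * t := by
    apply norm_of_normSq (by positivity)
    rw [Complex.sub_re, Complex.sub_im, Complex.neg_re, Complex.neg_im, circ_re, circ_im,
      Complex.ofReal_re, Complex.ofReal_im]
    have h2 := Real.sin_sq_add_cos_sq θ
    have h4 : Real.sin θ ^ 2 = 1 - Real.cos θ ^ 2 := by linarith
    calc (-(cc * Real.cos θ) - cc) * (-(cc * Real.cos θ) - cc) +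
          (-(cc * Real.sin θ) - 0) * (-(cc * Real.sin θ) - 0)
        = cc^2 * (Real.cos θ ^ 2 + 2 * Real.cos θ + 1 + Real.sin θ ^ 2) := by ring
      _ = cc^2 * (2 + 2 * Real.cos θ) := by rw [h4]; ring
      _ = (2 * cc * t)^2 := by rw [h3]; ring
  have hre : (1 + (cc : ℂ) * circleMap 0 cc θ).re = 1 + cc^2 * (2 * t^2 - 1) := by
    rw [Complex.add_re, Complex.re_ofReal_mul, circ_re, Complex.one_re, h3]; ring
  have him : (1 + (cc : ℂ) * circleMap 0 cc θ).im = cc^2 * Real.sin θ := by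
    rw [Complex.add_im, Complex.im_ofReal_mul, circ_im, Complex.one_im]; ring
  have hden : ‖1 + (cc : ℂ) * circleMap 0 cc θ‖ = DD t := by
    apply norm_of_normSq (DD_pos t).le
    rw [hre, him, DD_sq]
    have h2 := Real.sin_sq_add_cos_sq θ
    have h4 : Real.sin θ ^ 2 = 1 - (2 * t^2 - 1) ^ 2 := by rw [← h3]; linarith
    have h5 : (cc ^ 2 * Real.sin θ) * (cc ^ 2 * Real.sin θ) = cc^4 * Real.sin θ ^ 2 := by ring
    rw [h5, h4, aa_eq]
    ring
  have hmob : ‖mob (circleMap 0 cc θ)‖ = qq t := by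
    unfold mob qq
    rw [norm_div, hnum, hden]
  have hmre : (mob (circleMap 0 cc θ)).re ≤ 0 := by
    unfold mob
    rw [Complex.div_re, ← add_div]
    apply div_nonpos_of_nonpos_of_nonneg _ (Complex.normSq_nonneg _)
    rw [hre, him, Complex.sub_re, Complex.sub_im, Complex.neg_re, Complex.neg_im, circ_re, circ_im,
      Complex.ofReal_re, Complex.ofReal_im]
    have h2 := Real.sin_sq_add_cos_sq θ
    have h4 : Real.sin θ ^ 2 = 1 - (2 * t^2 - 1) ^ 2 := by rw [← h3]; linarith
    have h6 : (-(cc * Real.cos θ) - cc) * (1 + cc ^ 2 * (2 * t ^ 2 - 1)) +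
        (-(cc * Real.sin θ) - 0) * (cc ^ 2 * Real.sin θ) =
        -(cc * Real.cos θ + cc) * (1 + cc ^ 2 * (2 * t ^ 2 - 1)) - cc^3 * Real.sin θ ^ 2 := by ring
    rw [h6, h4, h3]
    have h7 : -(cc * (2 * t ^ 2 - 1) + cc) * (1 + cc ^ 2 * (2 * t ^ 2 - 1)) -
        cc ^ 3 * (1 - (2 * t ^ 2 - 1) ^ 2) = - (2 * cc * (1 + cc^2) * t^2) := by ring
    rw [h7]
    have : 0 ≤ 2 * cc * (1 + cc^2) * t^2 := by positivity
    linarith
  have hq := qq_lt_one t
  unfold s2 s0 yy
  rw [hmob]
  have hpi := Real.pi_pos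
  gcongr
  linarith

lemma uu_circle {θ : ℝ} (h1 : 149/100000 ≤ |Real.sin (θ/2)|) (h2 : 159/100000 ≤ |Real.cos (θ/2)|) :
    -(9/10) ≤ uu (circleMap 0 cc θ) := by
  unfold uu
  rw [circ_gg, circ_hh]
  have hs := circ_s2 θ
  set t := |Real.sin (θ/2)| with ht
  set t' := |Real.cos (θ/2)| with ht'
  have htt : t^2 + t'^2 = 1 := by
    rw [ht, ht', sq_abs, sq_abs]; exact Real.sin_sq_add_cos_sq _
  have h3 : (Real.log (QQ t) - Real.log (PP t / cc)) / Lc
      = - ((Real.log (PP t / cc) - Real.log (QQ t)) / Lc) := by ring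
  rw [h3]
  by_cases hcase : 7071/10000 ≤ t'
  · have h4 := s2_bound2 hcase
    have h5 := v1_bound1 h1
    linarith
  · push Not at hcase
    have h6 : 7071/10000 ≤ t := by
      have h0 : 0 ≤ t' := abs_nonneg _
      have h00 : 0 ≤ t := abs_nonneg _
      by_contra hcon
      push Not at hcon
      nlinarith
    have h4 := s2_bound1 h2
    have h5 := v1_bound2 h6
    linarith

/-! sub-mean value property -/

/-- the local sub-mean-value property of `f` at `z` -/
def SubMean (f : ℂ → ℝ) (z : ℂ) : Prop :=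
  ∃ δ : ℝ, 0 < δ ∧ ∀ ρ : ℝ, 0 < ρ → ρ < δ →
    CircleIntegrable f z ρ ∧ f z ≤ Real.circleAverage f z ρ

lemma SubMean.add {f g : ℂ → ℝ} {z : ℂ} (hf : SubMean f z) (hg : SubMean g z) :
    SubMean (fun w => f w + g w) z := by
  obtain ⟨δ1, h1, H1⟩ := hf
  obtain ⟨δ2, h2, H2⟩ := hg
  refine ⟨min δ1 δ2, lt_min h1 h2, fun ρ hρ hρ2 => ?_⟩
  obtain ⟨a1, b1⟩ := H1 ρ hρ (hρ2.trans_le (min_le_left _ _))
  obtain ⟨a2, b2⟩ := H2 ρ hρ (hρ2.trans_le (min_le_right _ _))
  refine ⟨a1.add a2, ?_⟩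
  rw [Real.circleAverage_fun_add a1 a2]
  linarith

lemma SubMean.const_mul {f : ℂ → ℝ} {z : ℂ} {a : ℝ} (ha : 0 ≤ a) (hf : SubMean f z) :
    SubMean (fun w => a * f w) z := by
  obtain ⟨δ1, h1, H1⟩ := hf
  refine ⟨δ1, h1, fun ρ hρ hρ2 => ?_⟩
  obtain ⟨a1, b1⟩ := H1 ρ hρ hρ2
  refine ⟨a1.const_mul a, ?_⟩
  have : Real.circleAverage (fun w => a * f w) z ρ = a * Real.circleAverage f z ρ := by
    have := Real.circleAverage_fun_smul (a := a) (f := f) (c := z) (R := ρ)
    simpa [smul_eq_mul] using this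
  rw [this]
  exact mul_le_mul_of_nonneg_left b1 ha

lemma harmonic_mean {f : ℂ → ℝ} {z : ℂ} (hf : HarmonicAt f z) :
    ∃ δ : ℝ, 0 < δ ∧ ∀ ρ : ℝ, 0 < ρ → ρ < δ →
      CircleIntegrable f z ρ ∧ f z = Real.circleAverage f z ρ := by
  obtain ⟨δ, hδ, H⟩ := Metric.eventually_nhds_iff_ball.mp hf.eventually
  refine ⟨δ, hδ, fun ρ hρ hρ2 => ?_⟩
  have h1 : HarmonicOnNhd f (closedBall z |ρ|) := by
    intro w hw
    rw [abs_of_pos hρ] at hw
    exact H w (closedBall_subset_ball hρ2 hw)
  refine ⟨?_, (InnerProductSpace.HarmonicOnNhd.circleAverage_eq h1).symm⟩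
  exact (h1.continuousOn.mono sphere_subset_closedBall).circleIntegrable'

lemma subMean_of_harmonic {f : ℂ → ℝ} {z : ℂ} (hf : HarmonicAt f z) : SubMean f z := by
  obtain ⟨δ, hδ, H⟩ := harmonic_mean hf
  exact ⟨δ, hδ, fun ρ hρ hρ2 => ⟨(H ρ hρ hρ2).1, (H ρ hρ hρ2).2.le⟩⟩

lemma subMean_of_abs {f H : ℂ → ℝ} {z : ℂ} (hH : HarmonicAt H z) (h : ∀ᶠ w in 𝓝 z, f w = |H w|) :
    SubMean f z := by
  obtain ⟨δ1, hδ1, H1⟩ := harmonic_mean hH
  obtain ⟨δ2, hδ2, H2⟩ := Metric.eventually_nhds_iff_ball.mp h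
  refine ⟨min δ1 δ2, lt_min hδ1 hδ2, fun ρ hρ hρ2 => ?_⟩
  obtain ⟨a1, b1⟩ := H1 ρ hρ (hρ2.trans_le (min_le_left _ _))
  have hρ3 : ρ < δ2 := hρ2.trans_le (min_le_right _ _)
  have hcongr : Set.EqOn |H| f (sphere z |ρ|) := by
    intro w hw
    rw [abs_of_pos hρ] at hw
    exact (H2 w (closedBall_subset_ball hρ3 (sphere_subset_closedBall hw))).symm
  have hint : CircleIntegrable f z ρ := by
    have h3 : CircleIntegrable |H| z ρ := ⟨a1.1.abs, a1.2.abs⟩
    exact (circleIntegrable_congr hcongr).mp h3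
  refine ⟨hint, ?_⟩
  rw [← Real.circleAverage_congr_sphere hcongr, H2 z (mem_ball_self hδ2), b1]
  exact Real.abs_circleAverage_le_circleAverage_abs

lemma subMean_of_zero {f : ℂ → ℝ} {z : ℂ} (h0 : f z = 0) {s : Set ℂ} (hs : s ∈ 𝓝 z)
    (hc : ContinuousOn f s) (hnn : ∀ w ∈ s, 0 ≤ f w) : SubMean f z := by
  obtain ⟨δ, hδ, H⟩ := Metric.mem_nhds_iff.mp hs
  refine ⟨δ, hδ, fun ρ hρ hρ2 => ?_⟩
  have hsub : sphere z |ρ| ⊆ s := by
    rw [abs_of_pos hρ]
    exact (sphere_subset_closedBall.trans (closedBall_subset_ball hρ2)).trans H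
  refine ⟨(hc.mono hsub).circleIntegrable', ?_⟩
  rw [h0]
  exact Real.circleAverage_nonneg_of_nonneg fun w hw => hnn w (hsub hw)

/-! the Green function part -/

lemma gX_ge (z : ℂ) : 1 ≤ gX z := by
  unfold gX
  rw [le_div_iff₀ cc_pos, one_mul]
  have h := norm_sub_le z (z - (cc:ℂ))
  rw [sub_sub_cancel, Complex.norm_real, Real.norm_eq_abs, abs_of_pos cc_pos] at h
  exact h

lemma gg_nonneg (z : ℂ) : 0 ≤ gg z := by
  unfold gg
  apply Real.log_nonneg
  have := gX_ge z
  have := Real.sqrt_nonneg (gX z ^ 2 - 1)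
  linarith

lemma gg_continuous : Continuous gg := by
  unfold gg
  have h1 : Continuous gX := by unfold gX; fun_prop
  apply Continuous.log
  · fun_prop
  · intro z
    have := gX_ge z
    have := Real.sqrt_nonneg (gX z ^ 2 - 1)
    positivity

lemma gg_eq {z A B : ℂ} (hA : ‖A‖ ^ 2 = ‖z‖) (hB : ‖B‖ ^ 2 = ‖z - (cc:ℂ)‖) (hAB : ‖A ^ 2 - B ^ 2‖ = cc) :
    gg z = |Real.log (‖A + B‖ ^ 2 / cc)| := by
  have hc := cc_pos
  set Y := ‖A + B‖ ^ 2 / cc with hY
  set Y' := ‖A - B‖ ^ 2 / cc with hY'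
  have h1 : Y + Y' = 2 * gX z := by
    rw [hY, hY', ← add_div]
    unfold gX
    rw [← hA, ← hB]
    have := parallelogram_law_with_norm ℝ A B
    field_simp
    nlinarith
  have h2 : Y * Y' = 1 := by
    rw [hY, hY']
    have h3 : ‖A + B‖ * ‖A - B‖ = cc := by
      rw [← norm_mul, ← hAB]
      congr 1
      ring
    have h4 : ‖A + B‖ ^ 2 / cc * (‖A - B‖ ^ 2 / cc) = (‖A + B‖ * ‖A - B‖)^2 / cc^2 := by
      field_simp
    rw [h4, h3]
    field_simp
  have hY0 : 0 ≤ Y := by rw [hY]; positivity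
  have hYpos : 0 < Y := by
    rcases hY0.eq_or_lt with h | h
    · rw [← h] at h2; norm_num at h2
    · exact h
  have hY'pos : 0 < Y' := by
    have : 0 < Y * Y' := by rw [h2]; norm_num
    exact (pos_iff_pos_of_mul_pos this).mp hYpos
  have hg : gX z = (Y + Y') / 2 := by linarith
  unfold gg
  have h5 : gX z ^ 2 - 1 = ((Y - Y') / 2)^2 := by
    rw [hg, ← h2]; ring
  rw [h5, Real.sqrt_sq_eq_abs, hg]
  rcases le_total Y Y' with h | h
  · have h6 : |(Y - Y') / 2| = (Y' - Y) / 2 := by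
      rw [abs_of_nonpos (by linarith)]; ring
    have h7 : Y ≤ 1 := by nlinarith
    rw [h6, abs_of_nonpos (Real.log_nonpos hY0 h7), ← Real.log_inv]
    congr 1
    field_simp
    nlinarith
  · have h6 : |(Y - Y') / 2| = (Y - Y') / 2 := by
      rw [abs_of_nonneg (by linarith)]
    have h7 : 1 ≤ Y := by nlinarith
    rw [h6, abs_of_nonneg (Real.log_nonneg h7)]
    congr 1
    ring

lemma sq_analyticAt {z : ℂ} (hz : z ∈ slitPlane) : AnalyticAt ℂ sq z := by
  unfold sq
  exact analyticAt_id.cpow analyticAt_const hz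

lemma gg_subMean_aux {z : ℂ} {A B : ℂ → ℂ} (hA : AnalyticAt ℂ A z) (hB : AnalyticAt ℂ B z)
    (h1 : ∀ w, ‖A w‖ ^ 2 = ‖w‖) (h2 : ∀ w, ‖B w‖ ^ 2 = ‖w - (cc:ℂ)‖)
    (h3 : ∀ w, ‖A w ^ 2 - B w ^ 2‖ = cc) : SubMean gg z := by
  have hc := cc_pos
  have hne : ∀ w, A w + B w ≠ 0 := by
    intro w h0
    have h4 : A w ^ 2 - B w ^ 2 = (A w + B w) * (A w - B w) := by ring
    have := h3 w
    rw [h4, h0, zero_mul, norm_zero] at this
    linarith
  apply subMean_of_abs (H := fun w => 2 * Real.log ‖A w + B w‖ - Real.log cc)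
  · have h5 : HarmonicAt (fun w => Real.log ‖A w + B w‖) z :=
      (hA.add hB).harmonicAt_log_norm (hne z)
    have h6 := (h5.const_smul (c := (2:ℝ))).sub (harmonicAt_const (Real.log cc))
    exact h6
  · apply Eventually.of_forall
    intro w
    rw [gg_eq (h1 w) (h2 w) (h3 w), Real.log_div (by
      have := norm_pos_iff.mpr (hne w); positivity) hc.ne', Real.log_pow]
    norm_num

lemma gg_subMean (z : ℂ) : SubMean gg z := by
  have hc := cc_pos
  by_cases him : z.im = 0
  · by_cases h1 : z.re < 0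
    · -- both -z and c - z in the slit plane
      have ha : -z ∈ slitPlane := by left; simp; exact h1
      have hb : (cc:ℂ) - z ∈ slitPlane := by left; simp; linarith
      apply gg_subMean_aux (A := fun w => sq (-w)) (B := fun w => sq (cc - w))
      · exact AnalyticAt.fun_comp (f := fun w : ℂ => -w) (g := sq) (sq_analyticAt ha) (by fun_prop)
      · exact AnalyticAt.fun_comp (f := fun w : ℂ => (cc:ℂ) - w) (g := sq) (sq_analyticAt hb) (by fun_prop)
      · intro w; rw [norm_sq_sq, norm_neg]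
      · intro w; rw [norm_sq_sq, norm_sub_rev]
      · intro w
        rw [sq_sq, sq_sq]
        have : -w - ((cc:ℂ) - w) = -(cc:ℂ) := by ring
        rw [this, norm_neg, Complex.norm_real, Real.norm_eq_abs, abs_of_pos hc]
    · by_cases h2 : cc < z.re
      · have ha : z ∈ slitPlane := by left; linarith
        have hb : z - (cc:ℂ) ∈ slitPlane := by left; simp; linarith
        apply gg_subMean_aux (A := fun w => sq w) (B := fun w => sq (w - cc))
        · exact sq_analyticAt ha
        · exact AnalyticAt.fun_comp (f := fun w : ℂ => w - (cc:ℂ)) (g := sq) (sq_analyticAt hb) (by fun_prop)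
        · intro w; rw [norm_sq_sq]
        · intro w; rw [norm_sq_sq]
        · intro w
          rw [sq_sq, sq_sq]
          have : w - (w - (cc:ℂ)) = (cc:ℂ) := by ring
          rw [this, Complex.norm_real, Real.norm_eq_abs, abs_of_pos hc]
      · push Not at h1 h2
        apply subMean_of_zero (s := Set.univ) _ univ_mem gg_continuous.continuousOn
          (fun w _ => gg_nonneg w)
        have hz : z = ((z.re : ℝ) : ℂ) := by
          apply Complex.ext
          · simp
          · simp [him]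
        have h3 : gX z = 1 := by
          unfold gX
          rw [hz, Complex.norm_real, ← Complex.ofReal_sub, Complex.norm_real, Real.norm_eq_abs,
            Real.norm_eq_abs, abs_of_nonneg h1, abs_of_nonpos (by simp; linarith)]
          field_simp
          ring
        unfold gg
        rw [h3]
        norm_num
  · have ha : -z ∈ slitPlane := by right; simpa using him
    have hb : (cc:ℂ) - z ∈ slitPlane := by right; simpa using him
    apply gg_subMean_aux (A := fun w => sq (-w)) (B := fun w => sq (cc - w))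
    · exact AnalyticAt.fun_comp (f := fun w : ℂ => -w) (g := sq) (sq_analyticAt ha) (by fun_prop)
    · exact AnalyticAt.fun_comp (f := fun w : ℂ => (cc:ℂ) - w) (g := sq) (sq_analyticAt hb) (by fun_prop)
    · intro w; rw [norm_sq_sq, norm_neg]
    · intro w; rw [norm_sq_sq, norm_sub_rev]
    · intro w
      rw [sq_sq, sq_sq]
      have : -w - ((cc:ℂ) - w) = -(cc:ℂ) := by ring
      rw [this, norm_neg, Complex.norm_real, Real.norm_eq_abs, abs_of_pos hc]

/-! the other pieces -/

lemma one_sub_mem_slit {z : ℂ} (hz : ‖z‖ < 1) : 1 - (cc:ℂ) * z ∈ slitPlane := by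
  left
  rw [Complex.sub_re, Complex.re_ofReal_mul, Complex.one_re]
  have h1 := Complex.re_le_norm z
  have h2 : cc < 1 := by unfold cc; norm_num
  have h3 := cc_pos
  nlinarith [norm_nonneg z]

lemma hh_harmonic {z : ℂ} (hz : ‖z‖ < 1) : HarmonicAt hh z := by
  have hc := cc_pos
  have hne : ∀ w, 1 + sq w ≠ 0 := by
    intro w h0
    have h1 := congrArg Complex.re h0
    have h2 := sq_re_nonneg w
    simp at h1
    linarith
  have h1 : AnalyticAt ℂ (fun w => 1 + sq (1 - (cc:ℂ) * w)) z := by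
    apply AnalyticAt.add analyticAt_const
    exact AnalyticAt.fun_comp (f := fun w : ℂ => 1 - (cc:ℂ) * w) (g := sq)
      (sq_analyticAt (one_sub_mem_slit hz)) (by fun_prop)
  have h5 : HarmonicAt (fun w => Real.log ‖1 + sq (1 - (cc:ℂ) * w)‖) z :=
    h1.harmonicAt_log_norm (hne _)
  have h6 := (h5.const_smul (c := (2:ℝ))).sub (harmonicAt_const (Real.log cc))
  have h7 : hh = (2:ℝ) • (fun w => Real.log ‖1 + sq (1 - (cc:ℂ) * w)‖) - fun _ => Real.log cc := by
    funext w
    unfold hh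
    rw [Real.log_div (by have := norm_pos_iff.mpr (hne (1 - (cc:ℂ) * w)); positivity) hc.ne',
      Real.log_pow]
    simp
  rw [h7]
  exact h6

/-- the half plane valued map behind `s0` -/
def FF (z : ℂ) : ℂ := (1 + I * sq (-z)) / (1 - I * sq (-z))

lemma norm_sq_lt {z : ℂ} (hz : ‖z‖ < 1) : ‖sq (-z)‖ < 1 := by
  have h1 := norm_sq_sq (-z)
  rw [norm_neg] at h1
  by_contra hcon
  push Not at hcon
  nlinarith

lemma den_ne {z : ℂ} (hz : ‖z‖ < 1) : 1 - I * sq (-z) ≠ 0 := by
  intro h0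
  have h1 : I * sq (-z) = 1 := by linear_combination -h0
  have h2 := congrArg norm h1
  rw [norm_mul, Complex.norm_I, one_mul, norm_one] at h2
  have := norm_sq_lt hz
  linarith

lemma FF_eq (z : ℂ) :
    (FF z).re = (1 - ‖z‖) / normSq (1 - I * sq (-z)) ∧
    (FF z).im = (2 * (sq (-z)).re) / normSq (1 - I * sq (-z)) := by
  have h1 := norm_sq_sq (-z)
  rw [norm_neg, ← Complex.normSq_eq_norm_sq, Complex.normSq_apply] at h1
  unfold FF
  rw [Complex.div_re, Complex.div_im, ← add_div, ← sub_div]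
  constructor
  · congr 1
    simp
    nlinarith
  · congr 1
    simp
    ring

lemma FF_re_pos {z : ℂ} (hz : ‖z‖ < 1) : 0 < (FF z).re := by
  rw [(FF_eq z).1]
  have h1 : 0 < normSq (1 - I * sq (-z)) := Complex.normSq_pos.mpr (den_ne hz)
  have : 0 < 1 - ‖z‖ := by linarith
  positivity

lemma s0_eq {z : ℂ} (hz : ‖z‖ < 1) : s0 z = (2 / Real.pi) * (Complex.log (FF z)).im := by
  have hpos := FF_re_pos hz
  have h1 : 0 < normSq (1 - I * sq (-z)) := Complex.normSq_pos.mpr (den_ne hz)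
  have harg : |Complex.arg (FF z)| < Real.pi / 2 := Complex.abs_arg_lt_pi_div_two_iff.mpr (Or.inl hpos)
  have h2 : Complex.arg (FF z) = Real.arctan ((FF z).im / (FF z).re) := by
    rw [← Complex.tan_arg, Real.arctan_tan (abs_lt.mp harg).1 (abs_lt.mp harg).2]
  have h3 : Real.sqrt (2 * (‖z‖ - z.re)) = 2 * (sq (-z)).re := by
    have h4 := sq_re_sq (-z)
    rw [norm_neg, Complex.neg_re] at h4
    have h5 : 2 * (‖z‖ - z.re) = (2 * (sq (-z)).re)^2 := by rw [mul_pow, h4]; ring
    rw [h5, Real.sqrt_sq (by have := sq_re_nonneg (-z); linarith)]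
  rw [Complex.log_im, h2, (FF_eq z).1, (FF_eq z).2]
  unfold s0
  rw [h3]
  congr 2
  have : 0 < 1 - ‖z‖ := by linarith
  field_simp

lemma FF_analyticAt {z : ℂ} (hz : ‖z‖ < 1) (hs : -z ∈ slitPlane) : AnalyticAt ℂ FF z := by
  have h1 : AnalyticAt ℂ (fun w => sq (-w)) z :=
    AnalyticAt.fun_comp (f := fun w : ℂ => -w) (g := sq) (sq_analyticAt hs) (by fun_prop)
  unfold FF
  apply AnalyticAt.div
  · exact analyticAt_const.add (analyticAt_const.mul h1)
  · exact analyticAt_const.sub (analyticAt_const.mul h1)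
  · exact den_ne hz

lemma s0_comp_harmonic {φ : ℂ → ℂ} {z : ℂ} (hφ : AnalyticAt ℂ φ z) (h1 : ‖φ z‖ < 1)
    (hs : -(φ z) ∈ slitPlane) : HarmonicAt (fun w => s0 (φ w)) z := by
  have h2 : AnalyticAt ℂ (fun w => Complex.log (FF (φ w))) z := by
    apply AnalyticAt.clog
    · exact AnalyticAt.fun_comp (FF_analyticAt h1 hs) hφ
    · left; exact FF_re_pos h1
  have h3 : HarmonicAt (fun w => (Complex.log (FF (φ w))).im) z := h2.harmonicAt_im
  have h4 := h3.const_smul (c := 2 / Real.pi)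
  rw [harmonicAt_congr_nhds (f₂ := (2 / Real.pi) • fun w => (Complex.log (FF (φ w))).im)]
  · exact h4
  · have h5 : ∀ᶠ w in 𝓝 z, ‖φ w‖ < 1 := by
      have : ContinuousAt (fun w => ‖φ w‖) z := hφ.continuousAt.norm
      exact this.eventually (gt_mem_nhds h1)
    filter_upwards [h5] with w hw
    rw [s0_eq hw]
    simp

lemma s0_continuousAt {z : ℂ} (hz : ‖z‖ < 1) : ContinuousAt s0 z := by
  unfold s0
  apply ContinuousAt.mul continuousAt_const
  apply Real.continuous_arctan.continuousAt.comp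
  apply ContinuousAt.div
  · fun_prop
  · fun_prop
  · linarith

lemma s0_nonneg {z : ℂ} (hz : ‖z‖ < 1) : 0 ≤ s0 z := by
  unfold s0
  have hpi := Real.pi_pos
  apply mul_nonneg (by positivity)
  apply Real.arctan_nonneg.mpr
  apply div_nonneg (Real.sqrt_nonneg _)
  linarith

lemma s0_le_one (z : ℂ) : s0 z ≤ 1 := by
  unfold s0
  have hpi := Real.pi_pos
  have := (Real.arctan_lt_pi_div_two (Real.sqrt (2 * (‖z‖ - z.re)) / (1 - ‖z‖))).le
  calc (2 / Real.pi) * Real.arctan _ ≤ (2 / Real.pi) * (Real.pi / 2) := by gcongr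
    _ = 1 := by field_simp

lemma s0_zero_of_slit {z : ℂ} (h : -z ∉ slitPlane) : s0 z = 0 := by
  rw [Complex.mem_slitPlane_iff] at h
  push Not at h
  simp only [Complex.neg_re, Complex.neg_im] at h
  have h1 : 0 ≤ z.re := by linarith [h.1]
  have h2 : z.im = 0 := by have := h.2; linarith
  have h3 : ‖z‖ = z.re := by
    apply norm_of_normSq h1
    rw [h2]; ring
  unfold s0
  rw [h3]
  simp

lemma mob_den {z : ℂ} (hz : ‖z‖ < 1) : 1 + (cc:ℂ) * z ≠ 0 := by
  intro h0
  have h1 : (cc:ℂ) * z = -1 := by linear_combination h0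
  have h2 := congrArg norm h1
  rw [norm_mul, norm_neg, norm_one, Complex.norm_real, Real.norm_eq_abs, abs_of_pos cc_pos] at h2
  have h3 : cc < 1 := by unfold cc; norm_num
  nlinarith [norm_nonneg z, cc_pos]

lemma mob_analyticAt {z : ℂ} (hz : ‖z‖ < 1) : AnalyticAt ℂ mob z := by
  unfold mob
  apply AnalyticAt.div
  · fun_prop
  · fun_prop
  · exact mob_den hz

lemma mob_norm {z : ℂ} (hz : ‖z‖ < 1) : ‖mob z‖ < 1 := by
  unfold mob
  rw [norm_div, div_lt_one (norm_pos_iff.mpr (mob_den hz))]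
  apply lt_of_pow_lt_pow_left₀ 2 (norm_nonneg _)
  rw [← Complex.normSq_eq_norm_sq, ← Complex.normSq_eq_norm_sq, Complex.normSq_apply,
    Complex.normSq_apply]
  have h1 : z.re * z.re + z.im * z.im < 1 := by
    rw [← Complex.normSq_apply, Complex.normSq_eq_norm_sq]
    nlinarith [norm_nonneg z]
  simp
  have hc : cc = 24/25 := rfl
  rw [hc]
  nlinarith

lemma s2_continuousAt {z : ℂ} (hz : ‖z‖ < 1) : ContinuousAt s2 z := by
  have h := ContinuousAt.comp (f := mob) (g := s0) (s0_continuousAt (mob_norm hz))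
    (mob_analyticAt hz).continuousAt
  exact h

lemma s2_subMean {z : ℂ} (hz : ‖z‖ < 1) : SubMean s2 z := by
  by_cases hs : -(mob z) ∈ slitPlane
  · exact subMean_of_harmonic (s0_comp_harmonic (mob_analyticAt hz) (mob_norm hz) hs)
  · have h0 : s2 z = 0 := s0_zero_of_slit hs
    apply subMean_of_zero (s := ball 0 1) h0 (isOpen_ball.mem_nhds (by simpa using hz))
    · intro w hw
      exact (s2_continuousAt (by simpa using hw)).continuousWithinAt
    · intro w hw
      exact s0_nonneg (mob_norm (by simpa using hw))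

lemma uu_subMean {z : ℂ} (hz : ‖z‖ < 1) : SubMean uu z := by
  have hL := Lc_pos
  have h1 : SubMean (fun w => (1 / Lc) * gg w) z := (gg_subMean z).const_mul (by positivity)
  have h2 : SubMean (fun w => -(1 / Lc) * hh w) z := by
    apply subMean_of_harmonic
    exact (hh_harmonic hz).const_smul (c := -(1 / Lc))
  have h3 : SubMean (fun _ : ℂ => (-1 : ℝ)) z := subMean_of_harmonic (harmonicAt_const _)
  have h4 := ((h1.add h2).add (s2_subMean hz)).add h3
  have h5 : uu = fun w => (1 / Lc) * gg w + -(1 / Lc) * hh w + s2 w + -1 := by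
    funext w
    unfold uu
    ring
  rw [h5]
  exact h4

lemma uu_continuousAt {z : ℂ} (hz : ‖z‖ < 1) : ContinuousAt uu z := by
  unfold uu
  have h1 := gg_continuous.continuousAt (x := z)
  have h2 := (hh_harmonic hz).1.continuousAt
  have h3 := s2_continuousAt hz
  exact (((h1.sub h2).div_const Lc).add h3).sub continuousAt_const

/-! sign and values on the slits -/

lemma norm_sub_cc_le {z : ℂ} (hz : ‖z‖ < 1) : ‖z - (cc:ℂ)‖ ≤ ‖1 - (cc:ℂ) * z‖ := by
  apply le_of_sq_le_sq _ (norm_nonneg _)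
  rw [← Complex.normSq_eq_norm_sq, ← Complex.normSq_eq_norm_sq, Complex.normSq_apply,
    Complex.normSq_apply]
  have h1 : z.re * z.re + z.im * z.im < 1 := by
    rw [← Complex.normSq_apply, Complex.normSq_eq_norm_sq]
    nlinarith [norm_nonneg z]
  simp
  have hc : cc = 24/25 := rfl
  rw [hc]
  nlinarith

lemma gg_le_hh {z : ℂ} (hz : ‖z‖ < 1) : gg z ≤ hh z := by
  have hc := cc_pos
  unfold gg hh
  set s := sq (1 - (cc:ℂ) * z) with hs
  have hsre : 0 ≤ s.re := sq_re_nonneg _
  set b := ‖1 + s‖ ^ 2 / cc with hb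
  set b' := ‖1 - s‖ ^ 2 / cc with hb'
  have hsum : b + b' = 2 * (1 + ‖1 - (cc:ℂ) * z‖) / cc := by
    rw [hb, hb', ← add_div]
    have h1 := parallelogram_law_with_norm ℝ (1:ℂ) s
    rw [← norm_sq_sq (1 - (cc:ℂ) * z), ← hs]
    congr 1
    rw [norm_one] at h1
    nlinarith
  have hprod : b * b' = ‖z‖ ^ 2 := by
    have h3 : ‖1 + s‖ * ‖1 - s‖ = cc * ‖z‖ := by
      rw [← norm_mul]
      have : (1 + s) * (1 - s) = (cc:ℂ) * z := by
        have h4 := sq_sq (1 - (cc:ℂ) * z)
        rw [← hs] at h4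
        linear_combination -h4
      rw [this, norm_mul, Complex.norm_real, Real.norm_eq_abs, abs_of_pos hc]
    rw [hb, hb']
    have h4 : ‖1 + s‖ ^ 2 / cc * (‖1 - s‖ ^ 2 / cc) = (‖1 + s‖ * ‖1 - s‖)^2 / cc^2 := by
      field_simp
    rw [h4, h3]
    field_simp
  have hbb : b' ≤ b := by
    rw [hb, hb']
    apply div_le_div_of_nonneg_right _ hc.le
    rw [← Complex.normSq_eq_norm_sq, ← Complex.normSq_eq_norm_sq, Complex.normSq_apply,
      Complex.normSq_apply]
    simp
    nlinarith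
  have hb'0 : 0 ≤ b' := by rw [hb']; positivity
  have hXge := gX_ge z
  set X := gX z with hX
  set r := Real.sqrt (X ^ 2 - 1) with hr
  have hr0 : 0 ≤ r := Real.sqrt_nonneg _
  have hr2 : r ^ 2 = X ^ 2 - 1 := by rw [hr]; exact Real.sq_sqrt (by nlinarith)
  have hXH : 2 * X < b + b' := by
    rw [hsum, hX]
    unfold gX
    rw [← mul_div_assoc]
    apply div_lt_div_of_pos_right _ hc
    have := norm_sub_cc_le hz
    linarith
  have hmain : X + r ≤ b := by
    by_contra hcon
    push Not at hcon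
    -- a = X + r, a' = X - r
    have h1 : (X + r) * (X - r) = 1 := by ring_nf; nlinarith
    have h2 : X - r < b' + b - (X + r) := by linarith
    have h3 : 0 < X + r := by linarith
    have h4 : 1 < (X + r) * (b' + b - (X + r)) := by
      rw [← h1]; exact mul_lt_mul_of_pos_left h2 h3
    have h5 : b * b' < 1 := by rw [hprod]; nlinarith [norm_nonneg z]
    have h6 : (X + r - b) * (b' - (X + r)) ≤ 0 := by
      apply mul_nonpos_of_nonneg_of_nonpos <;> linarith
    nlinarith
  exact Real.log_le_log (by linarith) hmain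

lemma uu_nonpos {z : ℂ} (hz : ‖z‖ < 1) : uu z ≤ 0 := by
  unfold uu
  have h1 := gg_le_hh hz
  have h2 := s0_le_one (mob z)
  have h3 : (gg z - hh z) / Lc ≤ 0 := div_nonpos_of_nonpos_of_nonneg (by linarith) Lc_pos.le
  have h4 : s2 z = s0 (mob z) := rfl
  linarith

lemma uu_slit1 {r : ℝ} (h0 : 0 ≤ r) (h1 : r ≤ cc) : uu (r:ℂ) ≤ -1 := by
  have hc := cc_pos
  have hL := Lc_pos
  have hX : gX (r:ℂ) = 1 := by
    unfold gX
    rw [Complex.norm_real, ← Complex.ofReal_sub, Complex.norm_real, Real.norm_eq_abs,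
      Real.norm_eq_abs, abs_of_nonneg h0, abs_of_nonpos (by linarith)]
    field_simp
    ring
  have hg : gg (r:ℂ) = 0 := by
    unfold gg
    rw [hX]; norm_num
  have hh' : Lc ≤ hh (r:ℂ) := by
    unfold hh Lc
    apply Real.log_le_log (by norm_num)
    rw [norm_one_add_sq]
    have h2 : (1:ℂ) - (cc:ℂ) * (r:ℂ) = ((1 - cc * r : ℝ) : ℂ) := by push_cast; ring
    have h3 : aa ≤ 1 - cc * r := by
      rw [aa_eq]; nlinarith
    have h4 : 0 ≤ 1 - cc * r := le_trans (by unfold aa; norm_num) h3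
    rw [h2, Complex.norm_real, Real.norm_eq_abs, abs_of_nonneg h4, Complex.ofReal_re]
    have h5 : (28/100 : ℝ) ≤ Real.sqrt ((1 - cc * r + (1 - cc * r)) / 2) := by
      apply Real.le_sqrt_of_sq_le
      have : (28/100 : ℝ)^2 = aa := by unfold aa; norm_num
      rw [this]; linarith
    rw [le_div_iff₀ hc]
    have h6 : (128/75 : ℝ) * cc = 1 + aa + 2 * (28/100) := by unfold aa cc; norm_num
    rw [h6]
    linarith
  unfold uu
  have h2 := s0_le_one (mob (r:ℂ))
  have h4 : s2 (r:ℂ) = s0 (mob (r:ℂ)) := rfl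
  have h5 : (gg (r:ℂ) - hh (r:ℂ)) / Lc ≤ -1 := by
    rw [div_le_iff₀ hL, hg]; linarith
  linarith

lemma uu_slit2 {r : ℝ} (h0 : cc ≤ r) (h1 : r < 1) : uu (-(r:ℂ)) ≤ -1 := by
  have hc := cc_pos
  have hn : ‖-(r:ℂ)‖ < 1 := by
    rw [norm_neg, Complex.norm_real, Real.norm_eq_abs, abs_of_pos (by linarith)]; exact h1
  have h3 : (gg (-(r:ℂ)) - hh (-(r:ℂ))) / Lc ≤ 0 :=
    div_nonpos_of_nonpos_of_nonneg (by have := gg_le_hh hn; linarith) Lc_pos.le
  have h4 : s2 (-(r:ℂ)) = 0 := by
    apply s0_zero_of_slit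
    have h5 : mob (-(r:ℂ)) = (((r - cc) / (1 - cc * r) : ℝ) : ℂ) := by
      unfold mob; push_cast; ring_nf
    rw [h5, Complex.mem_slitPlane_iff]
    push Not
    have hcc1 : cc < 1 := by unfold cc; norm_num
    have h6 : 0 < 1 - cc * r := by nlinarith
    constructor
    · rw [Complex.neg_re, Complex.ofReal_re]
      have : 0 ≤ (r - cc) / (1 - cc * r) := div_nonneg (by linarith) h6.le
      linarith
    · rw [Complex.neg_im, Complex.ofReal_im, neg_zero]
  unfold uu
  rw [h4]
  linarith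

/-! measures of the level sets -/

lemma sin_lower {x : ℝ} (h1 : 15/10000 ≤ x) (h2 : x ≤ Real.pi - 15/10000) :
    149/100000 ≤ Real.sin x := by
  have hpi := Real.pi_gt_three
  have h0 : (149/100000 : ℝ) ≤ Real.sin (15/10000) := by
    have := Real.sin_gt_sub_cube (x := 15/10000) (by norm_num)
    norm_num at this ⊢
    linarith
  refine h0.trans ?_
  rcases le_total x (Real.pi / 2) with h | h
  · exact Real.sin_le_sin_of_le_of_le_pi_div_two (by linarith) h h1
  · rw [← Real.sin_pi_sub x]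
    exact Real.sin_le_sin_of_le_of_le_pi_div_two (by linarith) (by linarith) (by linarith)

lemma sin_lower2 {x : ℝ} (h1 : 16/10000 ≤ x) (h2 : x ≤ Real.pi / 2) :
    159/100000 ≤ Real.sin x := by
  have hpi := Real.pi_gt_three
  have h0 : (159/100000 : ℝ) ≤ Real.sin (16/10000) := by
    have := Real.sin_gt_sub_cube (x := 16/10000) (by norm_num)
    norm_num at this ⊢
    linarith
  refine h0.trans ?_
  exact Real.sin_le_sin_of_le_of_le_pi_div_two (by linarith) h2 h1

lemma uu_levelSet_subset : levelSet uu (24/25) (9/10) ⊆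
    Icc 0 (30/10000) ∪ Icc (Real.pi - 32/10000) (Real.pi + 32/10000) ∪
      Icc (2 * Real.pi - 30/10000) (2 * Real.pi) := by
  intro θ hθ
  obtain ⟨⟨hθ0, hθ1⟩, hθ2⟩ := hθ
  by_contra hcon
  simp only [Set.mem_union, not_or, Set.mem_Icc, not_and_or, not_le] at hcon
  obtain ⟨⟨hA, hB⟩, hC⟩ := hcon
  have hA' : 30/10000 < θ := by
    rcases hA with h | h
    · linarith
    · exact h
  have hC' : θ < 2 * Real.pi - 30/10000 := by
    rcases hC with h | h
    · exact h
    · linarith
  have hs : 149/100000 ≤ |Real.sin (θ/2)| := by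
    refine (sin_lower (by linarith) (by linarith)).trans (le_abs_self _)
  have hcs : 159/100000 ≤ |Real.cos (θ/2)| := by
    rcases hB with h | h
    · have h1 : Real.cos (θ/2) = Real.sin (Real.pi/2 - θ/2) := (Real.sin_pi_div_two_sub _).symm
      rw [h1]
      refine (sin_lower2 (by linarith) (by linarith)).trans (le_abs_self _)
    · have h1 : Real.cos (θ/2) = - Real.sin (θ/2 - Real.pi/2) := by
        rw [Real.sin_sub_pi_div_two]; ring
      rw [h1, abs_neg]
      refine (sin_lower2 (by linarith) (by linarith)).trans (le_abs_self _)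
  have := uu_circle hs hcs
  have hcc : (cc:ℝ) = 24/25 := rfl
  rw [hcc] at this
  linarith

lemma uu_levelSet_volume : volume (levelSet uu (24/25) (9/10)) ≤ ENNReal.ofReal (124/10000) := by
  refine (measure_mono uu_levelSet_subset).trans ?_
  refine (measure_union_le _ _).trans ?_
  refine (add_le_add_left (measure_union_le _ _) _).trans ?_
  rw [Real.volume_Icc, Real.volume_Icc, Real.volume_Icc, ← ENNReal.ofReal_add (by norm_num) (by norm_num),
    ← ENNReal.ofReal_add (by norm_num) (by norm_num)]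
  apply ENNReal.ofReal_le_ofReal
  ring_nf
  norm_num

/-- the extremal function for the whole radius -/
def w0 (z : ℂ) : ℝ := s0 z - 1

lemma w0_circle {θ : ℝ} (h : |Real.sin (θ/2)| ≤ 32/10000) : w0 (circleMap 0 cc θ) < -(9/10) := by
  unfold w0 s0
  rw [circ_norm, circ_re]
  have h3 := cos_half θ
  set t := |Real.sin (θ/2)| with ht
  have ht0 : 0 ≤ t := abs_nonneg _
  have h4 : 2 * (cc - cc * Real.cos θ) = 4 * cc * t^2 := by rw [h3]; ring
  have h5 : Real.sqrt (2 * (cc - cc * Real.cos θ)) ≤ 196/100 * t := by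
    rw [h4, Real.sqrt_le_left (by positivity)]
    unfold cc
    nlinarith [sq_nonneg t]
  have h6 : Real.sqrt (2 * (cc - cc * Real.cos θ)) / (1 - cc) ≤ 1568/10000 := by
    have : (1:ℝ) - cc = 1/25 := by unfold cc; norm_num
    rw [this, div_le_iff₀ (by norm_num)]
    linarith
  have h7 : Real.arctan (Real.sqrt (2 * (cc - cc * Real.cos θ)) / (1 - cc)) ≤ 1568/10000 := by
    refine (arctan_le_self' ?_).trans h6
    have : (1:ℝ) - cc = 1/25 := by unfold cc; norm_num
    rw [this]; positivity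
  have hpi := Real.pi_pos
  have hpi2 := Real.pi_gt_d2
  have h8 : (2 / Real.pi) * Real.arctan (Real.sqrt (2 * (cc - cc * Real.cos θ)) / (1 - cc))
      ≤ (2 / Real.pi) * (1568/10000) := by gcongr
  have h9 : (2 / Real.pi) * (1568/10000) < 1/10 := by
    rw [div_mul_eq_mul_div, div_lt_iff₀ hpi]; linarith
  linarith

lemma w0_levelSet_superset : Ico 0 (64/10000) ∪ Ico (2 * Real.pi - 64/10000) (2 * Real.pi) ⊆
    levelSet w0 (24/25) (9/10) := by
  have hpi := Real.pi_gt_three
  rintro θ (hθ | hθ)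
  · refine ⟨⟨hθ.1, by linarith [hθ.2]⟩, ?_⟩
    apply w0_circle
    rw [abs_of_nonneg (Real.sin_nonneg_of_nonneg_of_le_pi (by linarith [hθ.1]) (by linarith [hθ.2]))]
    exact (Real.sin_le (by linarith [hθ.1])).trans (by linarith [hθ.2])
  · refine ⟨⟨by linarith [hθ.1], hθ.2⟩, ?_⟩
    apply w0_circle
    have h1 : Real.sin (θ/2) = Real.sin (Real.pi - θ/2) := (Real.sin_pi_sub _).symm
    rw [h1, abs_of_nonneg (Real.sin_nonneg_of_nonneg_of_le_pi (by linarith [hθ.2]) (by linarith [hθ.1]))]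
    exact (Real.sin_le (by linarith [hθ.2])).trans (by linarith [hθ.1])

lemma w0_levelSet_volume : ENNReal.ofReal (128/10000) ≤ volume (levelSet w0 (24/25) (9/10)) := by
  have hpi := Real.pi_gt_three
  refine le_trans ?_ (measure_mono w0_levelSet_superset)
  rw [measure_union _ measurableSet_Ico, Real.volume_Ico, Real.volume_Ico,
    ← ENNReal.ofReal_add (by norm_num) (by norm_num)]
  · apply ENNReal.ofReal_le_ofReal
    ring_nf
    norm_num
  · rw [Set.disjoint_left]
    intro x hx hx2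
    linarith [hx.2, hx2.1]

/-! the extremal function and its uniqueness -/

lemma neg_mem_slit_of {z : ℂ} (hz : ‖z‖ < 1) (h : z ∉ onAxis (Ico 0 1)) : -z ∈ slitPlane := by
  by_contra hcon
  rw [Complex.mem_slitPlane_iff] at hcon
  push Not at hcon
  simp only [Complex.neg_re, Complex.neg_im] at hcon
  have h1 : 0 ≤ z.re := by linarith [hcon.1]
  have h2 : z.im = 0 := by have := hcon.2; linarith
  apply h
  refine ⟨z.re, ⟨h1, ?_⟩, ?_⟩
  · exact (Complex.re_le_norm z).trans_lt hz
  · apply Complex.ext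
    · simp
    · simp [h2]

lemma one_mem_closure : (1:ℂ) ∈ closure (onAxis (Ico 0 1)) := by
  have h1 : (1:ℝ) ∈ closure (Ico (0:ℝ) 1) := by
    rw [closure_Ico (by norm_num)]; simp
  have h2 := image_closure_subset_closure_image (s := Ico (0:ℝ) 1) Complex.continuous_ofReal
  have h3 : (1:ℂ) ∈ (fun x : ℝ => (x:ℂ)) '' closure (Ico 0 1) := ⟨1, h1, by simp⟩
  exact h2 h3

lemma w0_extremal : IsExtremal (Ico 0 1) w0 where
  harmonic := by
    intro z hz
    have hz1 : ‖z‖ < 1 := by simpa using hz.1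
    have h1 := s0_comp_harmonic (φ := id) analyticAt_id hz1 (neg_mem_slit_of hz1 hz.2)
    exact h1.sub (harmonicAt_const 1)
  bounded := by
    refine ⟨1, fun z hz => ?_⟩
    have hz1 : ‖z‖ < 1 := by simpa using hz
    have h1 := s0_nonneg hz1
    have h2 := s0_le_one z
    unfold w0
    rw [abs_le]; constructor <;> linarith
  tendsto_circle := by
    intro ζ hζ hcl
    have hζ1 : ‖ζ‖ = 1 := by simpa using hζ
    have hne : ζ ≠ 1 := fun h => hcl (h ▸ one_mem_closure)
    have hre : ζ.re < 1 := by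
      rcases (Complex.re_le_norm ζ).lt_or_eq with h | h
      · rwa [hζ1] at h
      · exfalso
        apply hne
        have h2 : ζ.re = 1 := by rw [h, hζ1]
        have h3 : ζ.im = 0 := by
          have h4 := Complex.normSq_apply ζ
          rw [Complex.normSq_eq_norm_sq, hζ1, h2] at h4
          nlinarith
        apply Complex.ext <;> simp [h2, h3]
    have hnum : Tendsto (fun z : ℂ => Real.sqrt (2 * (‖z‖ - z.re)))
        (𝓝[ball (0:ℂ) 1 \ onAxis (Ico 0 1)] ζ) (𝓝 (Real.sqrt (2 * (1 - ζ.re)))) := by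
      have h5 : Continuous (fun z : ℂ => Real.sqrt (2 * (‖z‖ - z.re))) := by fun_prop
      have h6 := h5.tendsto ζ
      rw [hζ1] at h6
      exact h6.mono_left nhdsWithin_le_nhds
    have hpos : 0 < Real.sqrt (2 * (1 - ζ.re)) := Real.sqrt_pos.mpr (by linarith)
    have hden : Tendsto (fun z : ℂ => (1 - ‖z‖)⁻¹)
        (𝓝[ball (0:ℂ) 1 \ onAxis (Ico 0 1)] ζ) atTop := by
      apply tendsto_inv_nhdsGT_zero.comp
      rw [tendsto_nhdsWithin_iff]
      constructor
      · have h5 : Continuous (fun z : ℂ => 1 - ‖z‖) := by fun_prop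
        have h6 := h5.tendsto ζ
        rw [hζ1, sub_self] at h6
        exact h6.mono_left nhdsWithin_le_nhds
      · filter_upwards [self_mem_nhdsWithin] with z hz
        have : ‖z‖ < 1 := by simpa using hz.1
        simpa using this
    have hq : Tendsto (fun z : ℂ => Real.sqrt (2 * (‖z‖ - z.re)) / (1 - ‖z‖))
        (𝓝[ball (0:ℂ) 1 \ onAxis (Ico 0 1)] ζ) atTop := by
      simp_rw [div_eq_mul_inv]
      exact hnum.pos_mul_atTop hpos hden
    have harc := (Real.tendsto_arctan_atTop.mono_right nhdsWithin_le_nhds).comp hq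
    have h7 := (harc.const_mul (2 / Real.pi)).sub_const 1
    have h8 : 2 / Real.pi * (Real.pi / 2) - 1 = 0 := by
      have := Real.pi_ne_zero
      field_simp
      norm_num
    rw [h8] at h7
    exact h7
  tendsto_slit := by
    intro x hx
    have hx1 : ‖(x:ℂ)‖ < 1 := by
      rw [Complex.norm_real, Real.norm_eq_abs, abs_of_nonneg hx.1]; exact hx.2
    have h1 : ContinuousAt w0 (x:ℂ) := (s0_continuousAt hx1).sub continuousAt_const
    have h2 : w0 (x:ℂ) = -1 := by
      unfold w0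
      rw [s0_zero_of_slit]
      · ring
      · rw [Complex.mem_slitPlane_iff]
        push Not
        simp [hx.1]
    have h3 := h1.tendsto
    rw [h2] at h3
    exact h3.mono_left nhdsWithin_le_nhds
  eq_slit := by
    intro x hx
    unfold w0
    rw [s0_zero_of_slit]
    · ring
    · rw [Complex.mem_slitPlane_iff]
      push Not
      simp [hx.1]

lemma strong_max {e : ℂ → ℝ} {z : ℂ} {r : ℝ} (hr : 0 < r) (he : HarmonicOnNhd e (ball z r))
    (hmax : ∀ w ∈ ball z r, e w ≤ e z) : ∀ w ∈ ball z r, e w = e z := by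
  obtain ⟨F, hF1, hF2⟩ := InnerProductSpace.HarmonicOnNhd.exists_analyticOnNhd_ball_re_eq he
  have hd : DifferentiableOn ℂ (fun w => Complex.exp (F w)) (ball z r) :=
    hF1.differentiableOn.cexp
  have hn : ∀ w ∈ ball z r, ‖Complex.exp (F w)‖ = Real.exp (e w) := by
    intro w hw
    rw [Complex.norm_exp]
    have := hF2 hw
    simp only at this
    rw [this]
  have hz : z ∈ ball z r := mem_ball_self hr
  have hm : IsMaxOn (norm ∘ fun w => Complex.exp (F w)) (ball z r) z := by
    intro w hw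
    simp only [Set.mem_ofPred_eq, Function.comp]
    rw [hn w hw, hn z hz]
    exact Real.exp_le_exp.mpr (hmax w hw)
  have h1 := Complex.norm_eqOn_of_isPreconnected_of_isMaxOn isPreconnected_ball isOpen_ball hd hz hm
  intro w hw
  have h2 := h1 hw
  simp only [Function.comp, Function.const_apply] at h2
  rw [hn w hw, hn z hz] at h2
  exact Real.exp_injective h2

/-- maximum principle with one exceptional boundary point -/
lemma max_principle {G : Set ℂ} (hGo : IsOpen G) (hGs : G ⊆ ball (0:ℂ) 1) {d : ℂ → ℝ} {B : ℝ}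
    (hd : HarmonicOnNhd d G) (hB : ∀ z ∈ G, d z ≤ B)
    (hlim : ∀ ζ ∈ closure G, ζ ∉ G → ζ ≠ 1 → Tendsto d (𝓝[G] ζ) (𝓝 0)) :
    ∀ z ∈ G, d z ≤ 0 := by
  -- barrier
  have hb : ∀ z ∈ ball (0:ℂ) 1, 0 < Real.log 2 - Real.log ‖z - 1‖ := by
    intro z hz
    have hz1 : ‖z‖ < 1 := by simpa using hz
    have hpos : 0 < ‖z - 1‖ := by
      apply norm_pos_iff.mpr
      intro h0
      have : z = 1 := by linear_combination h0
      rw [this] at hz1
      simp at hz1
    have hlt : ‖z - 1‖ < 2 := by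
      have := norm_sub_le z 1
      rw [norm_one] at this
      linarith
    have := Real.log_lt_log hpos hlt
    linarith
  suffices H : ∀ ε : ℝ, 0 < ε → ∀ z ∈ G, d z - ε * (Real.log 2 - Real.log ‖z - 1‖) ≤ 0 by
    intro z hz
    have hbz := hb z (hGs hz)
    apply le_of_forall_pos_le_add
    intro η hη
    have := H (η / (Real.log 2 - Real.log ‖z - 1‖)) (by positivity) z hz
    rw [div_mul_cancel₀ _ hbz.ne'] at this
    linarith
  intro ε hε
  by_contra hcon
  push Not at hcon
  obtain ⟨z0, hz0, hz0'⟩ := hcon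
  set e : ℂ → ℝ := fun z => d z - ε * (Real.log 2 - Real.log ‖z - 1‖) with he
  have hne1 : ∀ z ∈ G, z - 1 ≠ 0 := by
    intro z hz h0
    have h1 : z = 1 := by linear_combination h0
    have := hGs hz
    rw [h1] at this
    simp at this
  have heh : HarmonicOnNhd e G := by
    intro z hz
    have h1 : HarmonicAt (fun w : ℂ => Real.log ‖w - 1‖) z :=
      AnalyticAt.harmonicAt_log_norm (f := fun w : ℂ => w - 1) (by fun_prop) (hne1 z hz)
    have h2 : HarmonicAt (fun w : ℂ => Real.log 2 - Real.log ‖w - 1‖) z :=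
      (harmonicAt_const (Real.log 2)).sub h1
    have h3 := (hd z hz).sub (h2.const_smul (c := ε))
    exact h3
  have hec : ContinuousOn e G := heh.continuousOn
  have heB : ∀ z ∈ G, e z ≤ B := by
    intro z hz
    have h1 := hb z (hGs hz)
    have h2 := hB z hz
    have h3 : 0 < ε * (Real.log 2 - Real.log ‖z - 1‖) := by positivity
    simp only [he]
    linarith
  -- the compact superlevel set
  set K : Set ℂ := {z | z ∈ G ∧ e z0 ≤ e z} with hK
  have hKG : K ⊆ G := fun z hz => hz.1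
  have he0 : 0 < e z0 := hz0'
  have hKclosed : IsClosed K := by
    rw [← closure_subset_iff_isClosed]
    intro ζ hζ
    have hζG : ζ ∈ closure G := closure_mono hKG hζ
    have hNe : (𝓝[K] ζ).NeBot := mem_closure_iff_nhdsWithin_neBot.mp hζ
    by_cases hG : ζ ∈ G
    · refine ⟨hG, ?_⟩
      have h1 : Tendsto e (𝓝[K] ζ) (𝓝 (e ζ)) :=
        ((hec.continuousAt (hGo.mem_nhds hG)).tendsto).mono_left nhdsWithin_le_nhds
      apply ge_of_tendsto h1
      filter_upwards [self_mem_nhdsWithin] with z hz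
      exact hz.2
    · exfalso
      by_cases h1 : ζ = 1
      · -- the barrier blows up
        subst h1
        have h2 : Tendsto (fun z : ℂ => ‖z - 1‖) (𝓝[K] 1) (𝓝[>] 0) := by
          rw [tendsto_nhdsWithin_iff]
          constructor
          · have h5 : Continuous (fun z : ℂ => ‖z - 1‖) := by fun_prop
            have h6 := h5.tendsto 1
            simp only [sub_self, norm_zero] at h6
            exact h6.mono_left nhdsWithin_le_nhds
          · filter_upwards [self_mem_nhdsWithin] with z hz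
            exact norm_pos_iff.mpr (hne1 z hz.1)
        have h3 : Tendsto (fun z : ℂ => Real.log ‖z - 1‖) (𝓝[K] 1) atBot :=
          Real.tendsto_log_nhdsGT_zero.comp h2
        have h4 : ∀ᶠ z in 𝓝[K] (1:ℂ), Real.log ‖z - 1‖ < Real.log 2 - B / ε :=
          h3.eventually (eventually_lt_atBot _)
        obtain ⟨z, hz1, hz2⟩ := (h4.and self_mem_nhdsWithin).exists
        have h5 := hB z hz2.1
        have h6 := hz2.2
        simp only [he] at h6 he0
        have h7 : B < ε * (Real.log 2 - Real.log ‖z - 1‖) := by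
          have h8 : B / ε < Real.log 2 - Real.log ‖z - 1‖ := by linarith
          rwa [div_lt_iff₀' hε] at h8
        linarith
      · have h2 := (hlim ζ hζG hG h1).mono_left (nhdsWithin_mono ζ hKG)
        have h3 : ∀ᶠ z in 𝓝[K] ζ, d z < e z0 := h2.eventually (gt_mem_nhds he0)
        obtain ⟨z, hz1, hz2⟩ := (h3.and self_mem_nhdsWithin).exists
        have h4 := hb z (hGs hz2.1)
        have h6 := hz2.2
        have h7 : 0 < ε * (Real.log 2 - Real.log ‖z - 1‖) := by positivity
        have h8 : e z = d z - ε * (Real.log 2 - Real.log ‖z - 1‖) := rfl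
        linarith
  have hKc : IsCompact K := by
    apply Metric.isCompact_of_isClosed_isBounded hKclosed
    exact isBounded_ball.subset (hKG.trans hGs)
  obtain ⟨z1, hz1, hmax1⟩ := hKc.exists_isMaxOn ⟨z0, hz0, le_rfl⟩ (hec.mono hKG)
  have hmax : ∀ z ∈ G, e z ≤ e z1 := by
    intro z hz
    by_cases h : e z0 ≤ e z
    · exact hmax1 ⟨hz, h⟩
    · push Not at h
      exact h.le.trans hz1.2
  -- the set where the maximum is attained
  set K2 : Set ℂ := {z | z ∈ K ∧ e z = e z1} with hK2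
  have hK2c : IsCompact K2 := by
    have : K2 = K ∩ e ⁻¹' {e z1} := rfl
    rw [this]
    exact hKc.of_isClosed_subset
      ((hec.mono hKG).preimage_isClosed_of_isClosed hKclosed isClosed_singleton)
      Set.inter_subset_left
  obtain ⟨z2, hz2, hmax2⟩ := hK2c.exists_isMaxOn ⟨z1, hz1, rfl⟩
    (Complex.continuous_re.continuousOn)
  obtain ⟨r, hr, hball⟩ := Metric.isOpen_iff.mp hGo z2 (hKG hz2.1)
  have hsm := strong_max hr (heh.mono hball) (fun w hw => by rw [hz2.2]; exact hmax w (hball hw))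
  have hp : z2 + ((r/2 : ℝ) : ℂ) ∈ ball z2 r := by
    rw [mem_ball, dist_eq_norm, add_sub_cancel_left, Complex.norm_real, Real.norm_eq_abs,
      abs_of_pos (by positivity)]
    linarith
  have h1 := hsm _ hp
  have h2 : z2 + ((r/2 : ℝ) : ℂ) ∈ K2 := by
    refine ⟨⟨hball hp, ?_⟩, ?_⟩
    · rw [h1, hz2.2]; exact hz1.2
    · rw [h1, hz2.2]
  have h3 := hmax2 h2
  simp only [Set.mem_ofPred_eq, Complex.add_re, Complex.ofReal_re] at h3
  linarith

lemma isOpen_G : IsOpen (ball (0:ℂ) 1 \ onAxis (Ico 0 1)) := by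
  have : ball (0:ℂ) 1 \ onAxis (Ico 0 1) = ball (0:ℂ) 1 ∩ {z | -z ∈ slitPlane} := by
    ext z
    constructor
    · intro hz
      exact ⟨hz.1, neg_mem_slit_of (by simpa using hz.1) hz.2⟩
    · rintro ⟨hz, hs⟩
      refine ⟨hz, ?_⟩
      rintro ⟨x, hx, rfl⟩
      have hs' : -(x:ℂ) ∈ slitPlane := hs
      rw [Complex.mem_slitPlane_iff] at hs'
      simp at hs'
      linarith [hx.1]
  rw [this]
  exact isOpen_ball.inter (Complex.isOpen_slitPlane.preimage continuous_neg)

lemma extremal_le {w w' : ℂ → ℝ} (hw : IsExtremal (Ico 0 1) w) (hw' : IsExtremal (Ico 0 1) w') :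
    ∀ z ∈ ball (0:ℂ) 1, w z ≤ w' z := by
  obtain ⟨B, hB⟩ := hw.bounded
  obtain ⟨B', hB'⟩ := hw'.bounded
  have h := max_principle (d := fun z => w z - w' z) (B := B + B') isOpen_G Set.sdiff_subset
    (fun z hz => (hw.harmonic z hz).sub (hw'.harmonic z hz))
    (fun z hz => by
      have h1 := (abs_le.mp (hB z hz.1)).2
      have h2 := (abs_le.mp (hB' z hz.1)).1
      linarith)
    (fun ζ hζ hG h1 => by
      by_cases hs : ζ ∈ onAxis (Ico 0 1)
      · obtain ⟨x, hx, rfl⟩ := hs
        have := (hw.tendsto_slit x hx).sub (hw'.tendsto_slit x hx)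
        simpa using this
      · have h2 : ζ ∈ closedBall (0:ℂ) 1 :=
          closure_minimal (Set.sdiff_subset.trans ball_subset_closedBall) isClosed_closedBall hζ
        have h3 : ζ ∈ sphere (0:ℂ) 1 := by
          rw [mem_sphere_zero_iff_norm]
          rw [mem_closedBall_zero_iff] at h2
          refine le_antisymm h2 ?_
          by_contra hcon
          push Not at hcon
          exact hG ⟨by simpa using hcon, hs⟩
        have h4 : ζ ∉ closure (onAxis (Ico 0 1)) := by
          intro hcl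
          -- the closure is contained in the closed segment
          have hsub : closure (onAxis (Ico 0 1)) ⊆ {z : ℂ | z.im = 0 ∧ 0 ≤ z.re} := by
            apply closure_minimal
            · rintro _ ⟨x, hx, rfl⟩
              exact ⟨by simp, by simpa using hx.1⟩
            · exact (isClosed_eq Complex.continuous_im continuous_const).inter
                (isClosed_le continuous_const Complex.continuous_re)
          obtain ⟨h5, h6⟩ := hsub hcl
          apply h1
          have h7 : ‖ζ‖ = 1 := by simpa using h3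
          have h8 := Complex.normSq_apply ζ
          rw [Complex.normSq_eq_norm_sq, h7, h5] at h8
          have h9 : ζ.re = 1 := by nlinarith
          apply Complex.ext <;> simp [h5, h9]
        have := (hw.tendsto_circle ζ h3 h4).sub (hw'.tendsto_circle ζ h3 h4)
        simpa using this)
  intro z hz
  by_cases hs : z ∈ onAxis (Ico 0 1)
  · obtain ⟨x, hx, rfl⟩ := hs
    rw [hw.eq_slit x hx, hw'.eq_slit x hx]
  · have h5 : w z - w' z ≤ 0 := h z ⟨hz, hs⟩
    linarith

lemma uu_mem_class : uu ∈ classU (Ico 0 1) := by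
  refine ⟨⟨?_, ?_⟩, ?_, ?_⟩
  · intro z hz
    exact (uu_continuousAt (by simpa using hz)).continuousWithinAt.upperSemicontinuousWithinAt
  · intro z hz
    exact uu_subMean (by simpa using hz)
  · intro z hz
    exact uu_nonpos (by simpa using hz)
  · intro r hr
    unfold lowerEnv
    rcases le_total r cc with h | h
    · have h1 : ((r:ℝ):ℂ) ∈ sphere (0:ℂ) r := by
        rw [mem_sphere_zero_iff_norm, Complex.norm_real, Real.norm_eq_abs, abs_of_nonneg hr.1]
      refine (iInf₂_le _ h1).trans ?_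
      have h2 : ((uu (r:ℂ) : ℝ) : EReal) ≤ ((-1:ℝ) : EReal) :=
        EReal.coe_le_coe_iff.mpr (uu_slit1 hr.1 h)
      have h3 : ((-1:ℝ) : EReal) = -1 := by norm_num
      rwa [h3] at h2
    · have h1 : -((r:ℝ):ℂ) ∈ sphere (0:ℂ) r := by
        rw [mem_sphere_zero_iff_norm, norm_neg, Complex.norm_real, Real.norm_eq_abs,
          abs_of_nonneg hr.1]
      refine (iInf₂_le _ h1).trans ?_
      have h2 : ((uu (-(r:ℂ)) : ℝ) : EReal) ≤ ((-1:ℝ) : EReal) :=
        EReal.coe_le_coe_iff.mpr (uu_slit2 h hr.2)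
      have h3 : ((-1:ℝ) : EReal) = -1 := by norm_num
      rwa [h3] at h2

/-- The comparison fails for the whole radius `E = [0,1)`, with `r = 24/25` and `K = 9/10`:
`u_E` exists, and for it there is a member of the class with a strictly shorter level set. -/
theorem result :
    (∃ w : ℂ → ℝ, IsExtremal (Ico 0 1) w) ∧
    ∀ w : ℂ → ℝ, IsExtremal (Ico 0 1) w →
      (levelSet w (24/25) (9/10)).Nonempty ∧
      ∃ u ∈ classU (Ico 0 1),
        volume (levelSet u (24/25) (9/10)) < volume (levelSet w (24/25) (9/10)) := by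
  refine ⟨⟨w0, w0_extremal⟩, fun w hw => ?_⟩
  have heq : levelSet w (24/25) (9/10) = levelSet w0 (24/25) (9/10) := by
    ext θ
    have hmem : circleMap 0 (24/25) θ ∈ ball (0:ℂ) 1 := by
      have h1 := circ_norm θ
      have h2 : cc = 24/25 := rfl
      rw [h2] at h1
      rw [mem_ball_zero_iff, h1]
      norm_num
    have h1 := extremal_le hw w0_extremal _ hmem
    have h2 := extremal_le w0_extremal hw _ hmem
    have h3 : w (circleMap 0 (24/25) θ) = w0 (circleMap 0 (24/25) θ) := le_antisymm h1 h2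
    unfold levelSet
    simp only [Set.mem_ofPred_eq]
    rw [h3]
  rw [heq]
  have hlt : volume (levelSet uu (24/25) (9/10)) < volume (levelSet w0 (24/25) (9/10)) := by
    refine lt_of_le_of_lt uu_levelSet_volume (lt_of_lt_of_le ?_ w0_levelSet_volume)
    rw [ENNReal.ofReal_lt_ofReal_iff (by norm_num)]
    norm_num
  refine ⟨?_, uu, uu_mem_class, hlt⟩
  apply nonempty_of_measure_ne_zero
  exact (lt_of_le_of_lt bot_le hlt).ne'

end

end Pool.Agent.Results.MP_f2ff95_an.Disproof
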